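import Pool.Agent.TH944.Del.Val
import Pool.Agent.TH965.St.Quot

/-!
# Families from functions on the virtual characters of the absolute Galois group of `ℚ`
-/

open NumberField

namespace Pool.Agent.TH944.Del

open Pool.Agent.TH965.St

theorem indQ_zero (H : Subgroup GQ) : indQ H 0 = 0 := by
  funext x
  show (∑ᶠ q : GQ ⧸ H, (0 : GQ → ℂ) ((q.out : GQ)⁻¹ * x * (q.out : GQ))) = 0
  simp only [Pi.zero_apply, finsum_zero]

theorem indQ_neg (H : Subgroup GQ) (f : GQ → ℂ) : indQ H (-f) = -indQ H f := by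
  funext x
  show (∑ᶠ q : GQ ⧸ H, (-f) ((q.out : GQ)⁻¹ * x * (q.out : GQ))) = - indQ H f x
  simp only [Pi.neg_apply]
  rw [finsum_neg_distrib]
  rfl

theorem nf_of_le {K K' : IntermediateField ℚ Qb} (h : NumberField K') (hle : K ≤ K') :
    NumberField K := by
  rw [nf_iff] at *
  exact FiniteDimensional.of_injective (IntermediateField.inclusion hle).toLinearMap
    (IntermediateField.inclusion hle).injective

theorem ind_bot_fn {K : IntermediateField ℚ Qb} (ψ : LinChar K) :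
    ind ⊥ K ψ.fn = indQ K.fixingSubgroup ψ.fn :=
  ind_bot (inv_fn ψ)

theorem ind_mem {K : IntermediateField ℚ Qb} (hK : NumberField K) (ψ : LinChar K) :
    ind ⊥ K ψ.fn ∈ Virt ⊥ :=
  AddSubgroup.subset_closure ⟨K, bot_le, hK, ψ, rfl⟩

theorem indQ_virt {K : IntermediateField ℚ Qb} (hK : NumberField K) {f : GQ → ℂ}
    (hf : f ∈ Virt K) : indQ K.fixingSubgroup f ∈ Virt ⊥ := by
  induction hf using AddSubgroup.closure_induction with
  | mem x hx =>
    obtain ⟨K', hle, hK', ψ, rfl⟩ := hx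
    rw [indQ_ind hK hK' hle (inv_fn ψ), ← ind_bot_fn]
    exact ind_mem hK' ψ
  | zero => rw [indQ_zero]; exact zero_mem _
  | add x y _ _ h1 h2 => rw [indQ_add _ (finQ hK)]; exact add_mem h1 h2
  | neg x _ h => rw [indQ_neg]; exact neg_mem h

theorem indQ_id {f : GQ → ℂ} (hf : f ∈ Virt ⊥) :
    indQ (⊥ : IntermediateField ℚ Qb).fixingSubgroup f = f := by
  induction hf using AddSubgroup.closure_induction with
  | mem x hx =>
    obtain ⟨K', hle, hK', ψ, rfl⟩ := hx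
    rw [indQ_ind nf_bot hK' hle (inv_fn ψ), ← ind_bot_fn]
  | zero => rw [indQ_zero]
  | add x y _ _ h1 h2 => rw [indQ_add _ (finQ nf_bot), h1, h2]
  | neg x _ h => rw [indQ_neg, h]

/-- the family attached to a multiplicative function on virtual characters of `ℚ` -/
noncomputable def fam {M : Type} [CommGroup M] (X : (GQ → ℂ) → M)
    (hX : ∀ f ∈ Virt ⊥, ∀ g ∈ Virt ⊥, X (f + g) = X f * X g) : Family M where
  D K f := X (indQ K.fixingSubgroup f)
  map_add := by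
    intro K hK f hf g hg
    rw [indQ_add _ (finQ hK)]
    exact hX _ (indQ_virt hK hf) _ (indQ_virt hK hg)
  map_ind := by
    intro K K' hK' hle ψ
    rw [indQ_ind (nf_of_le hK' hle) hK' hle (inv_fn ψ)]

theorem mainX {M : Type} [CommGroup M] (X : (GQ → ℂ) → M)
    (hX : ∀ f ∈ Virt ⊥, ∀ g ∈ Virt ⊥, X (f + g) = X f * X g)
    (N : ℕ) (e : ℂˣ) (he : e = 1 ∨ e = -1) :
    (∀ f ∈ Virt ⊥, X f = 1) ↔
    (∀ (K : IntermediateField ℚ Qb) [NumberField K], N ≤ InfinitePlace.nrComplexPlaces K →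
      ∀ ψ : LinChar K, ψ.HasSign e →
      (IsTotallyComplex K ∨ ∃ a : ℕ, ∀ g, ψ.hom g ^ (2 ^ a) = 1) → X (ind ⊥ K ψ.fn) = 1) := by
  constructor
  · intro H K hK _ ψ _ _
    exact H _ (ind_mem hK ψ)
  · intro H f hf
    have h := (main2 (fam X hX) N e he).2 (by
      intro K hK hN ψ h1 h2
      show X (indQ K.fixingSubgroup ψ.fn) = 1
      rw [← ind_bot_fn]
      exact H K hN ψ h1 h2) ⊥ nf_bot f hf
    have h' : X (indQ (⊥ : IntermediateField ℚ Qb).fixingSubgroup f) = 1 := h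
    rwa [indQ_id hf] at h'

theorem mainY {M : Type} [CommGroup M] (T : Subgroup M) (hT : ∀ x : M, x * x ∈ T → x ∈ T)
    (X : (GQ → ℂ) → M) (hX : ∀ f ∈ Virt ⊥, ∀ g ∈ Virt ⊥, X (f + g) = X f * X g) (N : ℕ) :
    (∀ f ∈ Virt ⊥, X f ∈ T) ↔
    (∀ (K : IntermediateField ℚ Qb) [NumberField K], N ≤ InfinitePlace.nrComplexPlaces K →
      ∀ ψ : LinChar K, (IsTotallyComplex K ∨ ∀ g, ψ.hom g = 1) → X (ind ⊥ K ψ.fn) ∈ T) := by
  constructor
  · intro H K hK _ ψ _
    exact H _ (ind_mem hK ψ)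
  · intro H f hf
    have h := (main3_quot T hT (fam X hX) N).2 (by
      intro K hK hN ψ h1
      show X (indQ K.fixingSubgroup ψ.fn) ∈ T
      rw [← ind_bot_fn]
      exact H K hN ψ h1) ⊥ nf_bot f hf
    have h' : X (indQ (⊥ : IntermediateField ℚ Qb).fixingSubgroup f) ∈ T := h
    rwa [indQ_id hf] at h'

/-! ### the action of the automorphisms of the complex numbers -/

/-- the conjugate character -/
noncomputable def csig {K : IntermediateField ℚ Qb} (σ : ℂ ≃+* ℂ) (ψ : LinChar K) : LinChar K where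
  hom := (Units.map (σ : ℂ →* ℂ)).comp ψ.hom
  smooth := by
    obtain ⟨L, hL, h1⟩ := ψ.smooth
    refine ⟨L, hL, fun g hg => ?_⟩
    rw [MonoidHom.comp_apply, h1 g hg, map_one]

theorem csig_fn {K : IntermediateField ℚ Qb} (σ : ℂ ≃+* ℂ) (ψ : LinChar K) :
    (csig σ ψ).fn = fun g => σ (ψ.fn g) := by
  funext g
  by_cases h : g ∈ K.fixingSubgroup
  · rw [(csig σ ψ).fn_of_mem h, ψ.fn_of_mem h]
    rfl
  · rw [(csig σ ψ).fn_of_not_mem h, ψ.fn_of_not_mem h, map_zero]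

theorem sig_indQ {K : IntermediateField ℚ Qb} (hK : NumberField K) (σ : ℂ ≃+* ℂ) (f : GQ → ℂ) :
    indQ K.fixingSubgroup (fun g => σ (f g)) = fun g => σ (indQ K.fixingSubgroup f g) := by
  have hF := finQ hK
  funext g
  unfold indQ
  exact (map_finsum (σ : ℂ →+ ℂ) (Set.toFinite _)).symm

theorem sig_virt (σ : ℂ ≃+* ℂ) {f : GQ → ℂ} (hf : f ∈ Virt ⊥) :
    (fun g => σ (f g)) ∈ Virt ⊥ := by
  induction hf using AddSubgroup.closure_induction with
  | mem x hx =>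
    obtain ⟨K', hle, hK', ψ, rfl⟩ := hx
    rw [ind_bot_fn, ← sig_indQ hK', ← csig_fn, ← ind_bot_fn]
    exact ind_mem hK' _
  | zero =>
    have : (fun g : GQ => σ ((0 : GQ → ℂ) g)) = 0 := by funext g; simp
    rw [this]; exact zero_mem _
  | add x y _ _ h1 h2 =>
    have : (fun g : GQ => σ ((x + y) g)) = (fun g => σ (x g)) + fun g => σ (y g) := by
      funext g; simp
    rw [this]; exact add_mem h1 h2
  | neg x _ h =>
    have : (fun g : GQ => σ ((-x) g)) = -(fun g => σ (x g)) := by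
      funext g; simp
    rw [this]; exact neg_mem h

/-! ### dimensions of the eigenspaces of complex conjugation -/

/-- `a`, `b` are the dimensions of the eigenspaces of `c` -/
def Dims (c : GQ) (f : GQ → ℂ) (a b : ℤ) : Prop :=
  f 1 = a + b ∧ f c = a - b

theorem dims_ind {K : IntermediateField ℚ Qb} (hK : NumberField K) (ψ : LinChar K) {c : GQ}
    (hc : IsCC c) :
    ∃ p n : ℕ, p + n = InfinitePlace.nrRealPlaces K ∧
      Dims c (ind ⊥ K ψ.fn) (InfinitePlace.nrComplexPlaces K + p)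
        (InfinitePlace.nrComplexPlaces K + n) ∧
      (ψ.HasSign 1 → n = 0) ∧ (ψ.HasSign (-1) → p = 0) := by
  obtain ⟨p, n, h1, h2, h3, h4⟩ := indQ_cc hK ψ hc
  refine ⟨p, n, h1, ⟨?_, ?_⟩, h3, h4⟩
  · rw [ind_bot_fn, indQ_one hK ψ, ← h1]
    push_cast
    ring
  · rw [ind_bot_fn, h2]
    push_cast
    ring

theorem dims_virt {c : GQ} (hc : IsCC c) {f : GQ → ℂ} (hf : f ∈ Virt ⊥) :
    ∃ a b : ℤ, Dims c f a b := by
  induction hf using AddSubgroup.closure_induction with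
  | mem x hx =>
    obtain ⟨K', hle, hK', ψ, rfl⟩ := hx
    obtain ⟨p, n, h1, h2, h3⟩ := dims_ind hK' ψ hc
    exact ⟨_, _, h2⟩
  | zero => exact ⟨0, 0, by simp [Dims]⟩
  | add x y _ _ h1 h2 =>
    obtain ⟨a, b, h1, h1'⟩ := h1
    obtain ⟨a', b', h2, h2'⟩ := h2
    refine ⟨a + a', b + b', ?_, ?_⟩
    · rw [Pi.add_apply, h1, h2]; push_cast; ring
    · rw [Pi.add_apply, h1', h2']; push_cast; ring
  | neg x _ h =>
    obtain ⟨a, b, h1, h1'⟩ := h
    refine ⟨-a, -b, ?_, ?_⟩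
    · rw [Pi.neg_apply, h1]; push_cast; ring
    · rw [Pi.neg_apply, h1']; push_cast; ring

/-- the dimension of the eigenspace of `c` for the eigenvalue `s` -/
noncomputable def dim (c : GQ) (s : ℤˣ) (f : GQ → ℂ) : ℤ :=
  ⌊((f 1 + ((s : ℤ) : ℂ) * f c) / 2).re⌋

theorem dim_one {c : GQ} {f : GQ → ℂ} {a b : ℤ} (h : Dims c f a b) : dim c 1 f = a := by
  unfold dim
  rw [h.1, h.2]
  have : ((a : ℂ) + b + (((1 : ℤˣ) : ℤ) : ℂ) * (a - b)) / 2 = (a : ℂ) := by
    push_cast; ring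
  rw [this, Complex.intCast_re, Int.floor_intCast]

theorem dim_neg {c : GQ} {f : GQ → ℂ} {a b : ℤ} (h : Dims c f a b) : dim c (-1) f = b := by
  unfold dim
  rw [h.1, h.2]
  have : ((a : ℂ) + b + (((-1 : ℤˣ) : ℤ) : ℂ) * (a - b)) / 2 = (b : ℂ) := by
    push_cast; ring
  rw [this, Complex.intCast_re, Int.floor_intCast]

theorem dim_add {c : GQ} (hc : IsCC c) (s : ℤˣ) {f g : GQ → ℂ} (hf : f ∈ Virt ⊥)
    (hg : g ∈ Virt ⊥) : dim c s (f + g) = dim c s f + dim c s g := by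
  obtain ⟨a, b, h1⟩ := dims_virt hc hf
  obtain ⟨a', b', h2⟩ := dims_virt hc hg
  have h3 : Dims c (f + g) (a + a') (b + b') := by
    refine ⟨?_, ?_⟩
    · rw [Pi.add_apply, h1.1, h2.1]; push_cast; ring
    · rw [Pi.add_apply, h1.2, h2.2]; push_cast; ring
  rcases Int.units_eq_one_or s with rfl | rfl
  · rw [dim_one h1, dim_one h2, dim_one h3]
  · rw [dim_neg h1, dim_neg h2, dim_neg h3]

end Pool.Agent.TH944.Del
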