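import Pool.Agent.TH944.Del.Tw
import Pool.Agent.TH944.Del.Fam
import Pool.Agent.TH965.St.Transfer

open NumberField
open Pool.Agent.TH965.Stk

namespace Pool.Agent.TH944.Tw

theorem r1_old (K : SubQ) (hK : IsNF K) :
    r1 K = @InfinitePlace.nrRealPlaces K.toIF _ hK := by
  have : NumberField K.toIF := hK
  classical
  unfold r1
  rw [Nat.card_eq_fintype_card]

theorem virt_bot : (Pool.Agent.TH965.St.Virt ⊥ : AddSubgroup (GQ → ℂ)) = Virt QQ :=
  virt_old QQ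

theorem no_cc {K : SubQ} (hK : IsNF K) (h : IsTC K) (c : GQ) (hc : c ∈ G K) : ¬ IsCC c := by
  rintro ⟨τ, hτ⟩
  have hn : NumberField K.toIF := hK
  have h1 := h.isComplex (InfinitePlace.mk (τ.comp (algebraMap K.toIF (AlgebraicClosure ℚ))))
  rw [← InfinitePlace.not_isReal_iff_isComplex] at h1
  refine h1 ⟨_, ?_, rfl⟩
  rw [ComplexEmbedding.isReal_iff]
  ext x
  show (starRingEnd ℂ) (τ (x : AlgebraicClosure ℚ)) = τ (x : AlgebraicClosure ℚ)
  rw [← hτ]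
  congr 1
  exact (IntermediateField.mem_fixingSubgroup_iff K.toIF c).1 hc x x.2

namespace Twists

variable {E : Type} [Field E]

theorem A_swap (T : Twists E) (m : ℤ) (s : ℤˣ) (a b : ℤ) (τ : E →+* ℂ) (f : GQ → ℂ) :
    T.A m s a b τ f = T.A m (-s) b a τ f := by
  unfold A
  rw [neg_neg, add_comm b a, mul_assoc _ (T.c s τ ^ a), mul_comm (T.c s τ ^ a),
    ← mul_assoc _ (T.c (-s) τ ^ b)]

theorem B_swap (T : Twists E) (m : ℤ) (s : ℤˣ) (a b : ℤ) (σ : ℂ ≃+* ℂ) (τ : E →+* ℂ)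
    (f : GQ → ℂ) : T.B m s a b σ τ f = T.B m (-s) b a σ τ f := by
  unfold B
  rw [A_swap T m s, A_swap T m s]

theorem A_add (T : Twists E) (m : ℤ) (s : ℤˣ) (a b a' b' : ℤ) (τ : E →+* ℂ) {f g : GQ → ℂ}
    (hf : f ∈ Virt QQ) (hg : g ∈ Virt QQ) :
    T.A m s (a + a') (b + b') τ (f + g) = T.A m s a b τ f * T.A m s a' b' τ g := by
  unfold A
  rw [T.L_add τ f hf g hg, T.δ_add f hf g hg, zpow_add, zpow_add, mul_pow, div_mul_div_comm]
  congr 1
  have e : m * T.h * (a + a' + (b + b')) = m * T.h * (a + b) + m * T.h * (a' + b') := by ring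
  rw [e, zpow_add]
  ac_rfl

theorem sig_mem (σ : ℂ ≃+* ℂ) {f : GQ → ℂ} (hf : f ∈ Virt QQ) : (fun g => σ (f g)) ∈ Virt QQ := by
  rw [← virt_bot] at *
  exact Del.sig_virt σ hf

theorem B_add (T : Twists E) (m : ℤ) (s : ℤˣ) (a b a' b' : ℤ) (σ : ℂ ≃+* ℂ) (τ : E →+* ℂ)
    {f g : GQ → ℂ} (hf : f ∈ Virt QQ) (hg : g ∈ Virt QQ) :
    T.B m s (a + a') (b + b') σ τ (f + g) = T.B m s a b σ τ f * T.B m s a' b' σ τ g := by
  unfold B
  have e : (fun x => σ ((f + g) x)) = (fun x => σ (f x)) + fun x => σ (g x) := by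
    funext x
    simp
  rw [e, A_add T m s a b a' b' _ (sig_mem σ hf) (sig_mem σ hg), A_add T m s a b a' b' _ hf hg,
    map_mul, div_mul_div_comm]

/-- the multiplicative function -/
noncomputable def X (T : Twists E) (m : ℤ) (s : ℤˣ) (σ : ℂ ≃+* ℂ) (τ : E →+* ℂ) (f : GQ → ℂ) :
    ℂˣ :=
  T.B m s (dim T.cc 1 f) (dim T.cc (-1) f) σ τ f

theorem X_add (T : Twists E) (m : ℤ) (s : ℤˣ) (σ : ℂ ≃+* ℂ) (τ : E →+* ℂ) :
    ∀ f ∈ Pool.Agent.TH965.St.Virt ⊥, ∀ g ∈ Pool.Agent.TH965.St.Virt ⊥,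
      T.X m s σ τ (f + g) = T.X m s σ τ f * T.X m s σ τ g := by
  intro f hf g hg
  unfold X
  have e1 : dim T.cc 1 (f + g) = dim T.cc 1 f + dim T.cc 1 g := Del.dim_add T.isCC 1 hf hg
  have e2 : dim T.cc (-1) (f + g) = dim T.cc (-1) f + dim T.cc (-1) g :=
    Del.dim_add T.isCC (-1) hf hg
  rw [e1, e2]
  exact T.B_add m s _ _ _ _ σ τ (by rw [← virt_bot]; exact hf) (by rw [← virt_bot]; exact hg)

theorem X_ind (T : Twists E) (m : ℤ) (s e : ℤˣ) (σ : ℂ ≃+* ℂ) (τ : E →+* ℂ) {K : SubQ}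
    (hK : IsNF K) (ψ : LinChar K) (he : ψ.HasSign (Units.map (Int.castRingHom ℂ : ℤ →* ℂ) e)) :
    T.X m s σ τ (ind QQ K ψ.fn) = T.B m (e * s) (r1 K + r2 K) (r2 K) σ τ (ind QQ K ψ.fn) := by
  obtain ⟨p, n, h1, h2, h3, h4⟩ := Del.dims_ind (K := K.toIF) hK ψ.old T.isCC
  have h2' : Del.Dims T.cc (ind QQ K ψ.fn) (r2 K + p) (r2 K + n) := by
    rw [r2_old K hK]
    exact h2
  have h1' : p + n = r1 K := by
    rw [r1_old K hK]
    exact h1
  have d1 : dim T.cc 1 (ind QQ K ψ.fn) = r2 K + p := Del.dim_one h2'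
  have d2 : dim T.cc (-1) (ind QQ K ψ.fn) = r2 K + n := Del.dim_neg h2'
  unfold X
  rw [d1, d2]
  rcases Int.units_eq_one_or e with rfl | rfl
  · have hn : n = 0 := h3 (by
      intro c hc
      rw [map_one] at he
      exact he c hc)
    rw [hn, add_zero] at h1'
    rw [hn, h1', one_mul, Nat.cast_zero, add_zero, add_comm (r2 K : ℤ)]
  · have hp : p = 0 := h4 (by
      intro c hc
      have := he c hc
      rw [show (ψ.old).hom c = ψ.hom c from rfl, this]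
      ext
      simp)
    rw [hp, zero_add] at h1'
    rw [hp, h1', neg_one_mul, Nat.cast_zero, add_zero, add_comm (r2 K : ℤ) (r1 K : ℤ), B_swap]

end Twists

theorem main1 {E : Type} [Field E] (T : Twists E) (m : ℤ) (s e : ℤˣ) (N : ℕ) :
    (∀ σ τ, ∀ f ∈ Virt QQ, T.B m s (dim T.cc 1 f) (dim T.cc (-1) f) σ τ f = 1) ↔
    (∀ σ τ K, IsNF K → N ≤ r2 K → ∀ ψ : LinChar K,
      ψ.HasSign (Units.map (Int.castRingHom ℂ : ℤ →* ℂ) e) →
      (IsTC K ∨ ∃ a : ℕ, ∀ g, ψ.hom g ^ (2 ^ a) = 1) →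
      T.B m (e * s) (r1 K + r2 K) (r2 K) σ τ (ind QQ K ψ.fn) = 1) := by
  have he : Units.map (Int.castRingHom ℂ : ℤ →* ℂ) e = 1 ∨
      Units.map (Int.castRingHom ℂ : ℤ →* ℂ) e = -1 := by
    rcases Int.units_eq_one_or e with rfl | rfl
    · left; rw [map_one]
    · right; ext; simp
  refine forall_congr' fun σ => forall_congr' fun τ => ?_
  have h := Del.mainX (T.X m s σ τ) (T.X_add m s σ τ) N
    (Units.map (Int.castRingHom ℂ : ℤ →* ℂ) e) he
  constructor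
  · intro H K hK hN ψ h1 h2
    rw [← T.X_ind m s e σ τ hK ψ h1]
    rw [r2_old K hK] at hN
    have h' := h.1 (by
      intro f hf
      rw [virt_bot] at hf
      exact H f hf)
    exact @h' K.toIF hK hN ψ.old h1 h2
  · intro H f hf
    refine h.2 ?_ f (by rw [virt_bot]; exact hf)
    intro K hK hN ψ h1 h2
    have h3 := H K hK (by rw [r2_old K hK]; exact hN) (LinChar.new (K := K) ψ) h1 h2
    rw [← T.X_ind m s e σ τ hK (LinChar.new (K := K) ψ) h1] at h3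
    exact h3

theorem main2 {E : Type} [Field E] (U : Subgroup ℂˣ) (hU : ∀ x : ℂˣ, x * x ∈ U → x ∈ U)
    (T : Twists E) (m : ℤ) (s : ℤˣ) (N : ℕ) :
    (∀ σ τ, ∀ f ∈ Virt QQ, T.B m s (dim T.cc 1 f) (dim T.cc (-1) f) σ τ f ∈ U) ↔
    (∀ σ τ K, IsNF K → N ≤ r2 K → ∀ ψ : LinChar K, (IsTC K ∨ ∀ g, ψ.hom g = 1) →
      T.B m s (r1 K + r2 K) (r2 K) σ τ (ind QQ K ψ.fn) ∈ U) := by
  have hs : ∀ K : SubQ, IsNF K → ∀ ψ : LinChar K, (IsTC K ∨ ∀ g, ψ.hom g = 1) →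
      ψ.HasSign (Units.map (Int.castRingHom ℂ : ℤ →* ℂ) 1) := by
    intro K hK ψ h c hc
    rcases h with h | h
    · exfalso
      exact no_cc hK h c c.2 hc
    · rw [map_one]; exact h c
  refine forall_congr' fun σ => forall_congr' fun τ => ?_
  have h := Del.mainY U hU (T.X m s σ τ) (T.X_add m s σ τ) N
  have key : ∀ K : SubQ, IsNF K → ∀ ψ : LinChar K, (IsTC K ∨ ∀ g, ψ.hom g = 1) →
      T.X m s σ τ (ind QQ K ψ.fn) = T.B m s (r1 K + r2 K) (r2 K) σ τ (ind QQ K ψ.fn) := by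
    intro K hK ψ h
    have := T.X_ind m s 1 σ τ hK ψ (hs K hK ψ h)
    rwa [one_mul] at this
  constructor
  · intro H K hK hN ψ h1
    rw [← key K hK ψ h1]
    rw [r2_old K hK] at hN
    have h' := h.1 (by
      intro f hf
      rw [virt_bot] at hf
      exact H f hf)
    exact @h' K.toIF hK hN ψ.old h1
  · intro H f hf
    refine h.2 ?_ f (by rw [virt_bot]; exact hf)
    intro K hK hN ψ h1
    have h3 := H K hK (by rw [r2_old K hK]; exact hN) (LinChar.new (K := K) ψ) h1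
    rw [← key K hK (LinChar.new (K := K) ψ) h1] at h3
    exact h3

end Pool.Agent.TH944.Tw
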