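import Pool.Agent.TH944.Del.BsdM

open NumberField Filter Topology
open Pool.Agent.TH965.Stk

namespace Pool.Agent.TH944.Tw

/-- additive functions on the virtual characters of `ℚ`, modulo a subgroup closed under
division -/
theorem main_add {A : Type} [AddCommGroup A] (U : AddSubgroup A)
    (hU : ∀ (x : A) (n : ℕ), n ≠ 0 → n • x ∈ U → x ∈ U) (D : (GQ → ℂ) → A)
    (hD : ∀ f ∈ Virt QQ, ∀ g ∈ Virt QQ, D (f + g) - (D f + D g) ∈ U) (N : ℕ) :
    (∀ f ∈ Virt QQ, D f ∈ U) ↔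
    (D (fun _ => 1) ∈ U ∧ ∀ K, IsNF K → N ≤ r2 K → IsTC K → ∀ ψ : LinChar K,
      D (ind QQ K ψ.fn) ∈ U) := by
  let X : (GQ → ℂ) → Multiplicative (A ⧸ U) := fun f => Multiplicative.ofAdd (D f : A ⧸ U)
  have hX1 : ∀ f, X f = 1 ↔ D f ∈ U := by
    intro f
    show Multiplicative.ofAdd (D f : A ⧸ U) = 1 ↔ _
    rw [ofAdd_eq_one, QuotientAddGroup.eq_zero_iff]
  have h := Del.mainZ (M := Multiplicative (A ⧸ U)) (by
      intro x n hn hx
      obtain ⟨y, hy⟩ := QuotientAddGroup.mk_surjective x.toAdd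
      have h1 : n • x.toAdd = 0 := by
        rw [← toAdd_pow, hx, toAdd_one]
      rw [← hy, ← QuotientAddGroup.mk_nsmul, QuotientAddGroup.eq_zero_iff] at h1
      have h2 := hU y n hn h1
      rw [← QuotientAddGroup.eq_zero_iff, hy] at h2
      exact Multiplicative.toAdd.injective h2) X
    (by
      intro f hf g hg
      rw [virt_bot'] at hf hg
      have h0 : D (f + g) - (D f + D g) ∈ U := hD f hf g hg
      have h1 : ((D (f + g) : A) : A ⧸ U) = (D f : A ⧸ U) + (D g : A ⧸ U) := by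
        rw [← QuotientAddGroup.mk_add, ← sub_eq_zero, ← QuotientAddGroup.mk_sub]
        exact (QuotientAddGroup.eq_zero_iff _).2 h0
      exact (congrArg Multiplicative.ofAdd h1).trans (ofAdd_add _ _)) N
  constructor
  · intro H
    have h1 := h.1 (fun f hf => (hX1 f).2 (H f (by rw [virt_bot'] at hf; exact hf)))
    refine ⟨(hX1 _).1 h1.1, fun K hK hN hT ψ => ?_⟩
    rw [r2_old K hK] at hN
    exact (hX1 _).1 (@h1.2 K.toIF hK hN hT ψ.old)
  · rintro ⟨H1, H2⟩ f hf
    refine (hX1 f).1 (h.2 ⟨(hX1 _).2 H1, ?_⟩ f (by rw [virt_bot']; exact hf))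
    intro K hK hN hT ψ
    exact (hX1 _).2 (H2 K hK (by rw [r2_old K hK]; exact hN) hT (LinChar.new (K := K) ψ))

end Pool.Agent.TH944.Tw
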