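import Pool.Agent.TH965.St.Short

/-!
# Critical values of the twists of a motive by Artin motives
-/

open NumberField
open Pool.Agent.TH965.Stk

namespace Pool.Agent.TH944.Tw

/-- The field of rational numbers, as a subfield of its algebraic closure. -/
noncomputable def QQ : SubQ := (⊥ : IntermediateField ℚ (AlgebraicClosure ℚ))

/-- The number of real places of `K`. -/
noncomputable def r1 (K : SubQ) : ℕ :=
  Nat.card {w : InfinitePlace K.toIF // w.IsReal}

/-- `2 π i`. -/
noncomputable def tpi : ℂˣ := Units.mk0 (2 * Real.pi * Complex.I) Complex.two_pi_I_ne_zero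

/-- For an Artin motive with character `f`: the dimension of the eigenspace of the complex
conjugation `c` for the eigenvalue `s`, that is `(f(1) + s f(c)) / 2`. -/
noncomputable def dim (c : GQ) (s : ℤˣ) (f : GQ → ℂ) : ℤ :=
  ⌊((f 1 + ((s : ℤ) : ℂ) * f c) / 2).re⌋

/-- The numbers entering Deligne's conjecture for the twists of a motive `M` over `ℚ` with
coefficients in `E`, and without classes of type `(w/2, w/2)`, by Artin motives. The twist by an
Artin motive `ρ` with coefficients in `E' ⊇ E` has an `L`-value and a period with a component for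
every embedding `τ'` of `E'`; it depends on `τ'` only through its restriction `τ` to `E` and
through the character `f` of `ρ` seen through `τ'`. -/
structure Twists (E : Type) [Field E] where
  /-- `n^+(M) = n^-(M)`, half the rank of `M` -/
  h : ℕ
  /-- a complex conjugation -/
  cc : GQ
  /-- it is one -/
  isCC : IsCC cc
  /-- `c s τ`: the component at `τ` of the period `c^s(M)` -/
  c : ℤˣ → (E →+* ℂ) → ℂˣ
  /-- `δ f`: the period determinant of an Artin motive with character `f` -/
  δ : (GQ → ℂ) → ℂˣ
  /-- `L τ f`: the value of the `L`-function of the twist -/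
  L : (E →+* ℂ) → (GQ → ℂ) → ℂˣ
  /-- period determinants of direct sums -/
  δ_add : ∀ f ∈ Virt QQ, ∀ g ∈ Virt QQ, δ (f + g) = δ f * δ g
  /-- `L`-functions of direct sums -/
  L_add : ∀ τ, ∀ f ∈ Virt QQ, ∀ g ∈ Virt QQ, L τ (f + g) = L τ f * L τ g

namespace Twists

variable {E : Type} [Field E]

/-- The `L`-value divided by `(2 π i)^(m h (a + b)) c^s(M)^a c^(-s)(M)^b δ^h`. -/
noncomputable def A (T : Twists E) (m : ℤ) (s : ℤˣ) (a b : ℤ) (τ : E →+* ℂ) (f : GQ → ℂ) : ℂˣ :=
  T.L τ f / (tpi ^ (m * T.h * (a + b)) * T.c s τ ^ a * T.c (-s) τ ^ b * T.δ f ^ T.h)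

/-- The quotient of `σ (A τ f)` by the corresponding number for the conjugate pair
`(σ τ, σ f)`. -/
noncomputable def B (T : Twists E) (m : ℤ) (s : ℤˣ) (a b : ℤ) (σ : ℂ ≃+* ℂ) (τ : E →+* ℂ)
    (f : GQ → ℂ) : ℂˣ :=
  Units.map (σ : ℂ →* ℂ) (T.A m s a b τ f) /
    T.A m s a b ((σ : ℂ →+* ℂ).comp τ) (fun g => σ (f g))

end Twists

end Pool.Agent.TH944.Tw
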