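import Pool.Agent.TH965.St.Short
import Pool.Agent.TH944.Del.Tw

/-!
# Orders of vanishing and multiplicities for the Artin twists of an abelian variety over `ℚ`
-/

open NumberField Filter Topology
open Pool.Agent.TH965.Stk

namespace Pool.Agent.TH944.Tw

/-- The `ψ`-eigenspace of a representation `ρ` of the absolute Galois group of `ℚ`: the vectors on
which the absolute Galois group of `K` acts through `ψ`. -/
def eig {V : Type} [AddCommGroup V] [Module ℂ V] (ρ : Representation ℂ GQ V) {K : SubQ}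
    (ψ : LinChar K) : Submodule ℂ V where
  carrier := {v | ∀ g : G K, ρ (g : GQ) v = ((ψ.hom g : ℂˣ) : ℂ) • v}
  add_mem' := by
    intro v w hv hw g
    rw [map_add, hv g, hw g, smul_add]
  zero_mem' := by
    intro g
    rw [map_zero, smul_zero]
  smul_mem' := by
    intro a v hv g
    rw [map_smul, hv g, smul_comm]

/-- The `L`-functions `L(A, τ, s)` of the twists of an abelian variety `A` over `ℚ` by Artin
characters `τ`, near `s = 1`, and the multiplicities of `τ` in `A(ℚ-bar) ⊗ ℂ`. -/
structure EqBSD (V : Type) [AddCommGroup V] [Module ℂ V] where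
  /-- the Galois representation on `A(ℚ-bar) ⊗ ℂ` -/
  ρ : Representation ℂ GQ V
  /-- the `L`-functions -/
  L : (GQ → ℂ) → ℂ → ℂ
  /-- they are meromorphic at `s = 1` -/
  mer : ∀ f ∈ Virt QQ, MeromorphicAt (L f) 1
  /-- they are not zero identically near `s = 1` -/
  ne : ∀ f ∈ Virt QQ, meromorphicOrderAt (L f) 1 ≠ ⊤
  /-- `L`-functions of direct sums -/
  mul : ∀ f ∈ Virt QQ, ∀ g ∈ Virt QQ, L (f + g) =ᶠ[𝓝[≠] 1] L f * L g
  /-- the multiplicity -/
  mult : (GQ → ℂ) → ℤ
  /-- multiplicities are additive -/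
  mult_add : ∀ f ∈ Virt QQ, ∀ g ∈ Virt QQ, mult (f + g) = mult f + mult g
  /-- Frobenius reciprocity -/
  mult_ind : ∀ K, IsNF K → ∀ ψ : LinChar K,
    mult (ind QQ K ψ.fn) = Module.finrank ℂ (eig ρ ψ)

/-- The order of vanishing at `s = 1`. -/
noncomputable def EqBSD.ord {V : Type} [AddCommGroup V] [Module ℂ V] (T : EqBSD V)
    (f : GQ → ℂ) : ℤ := (meromorphicOrderAt (T.L f) 1).untop₀

end Pool.Agent.TH944.Tw
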