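import Pool.Agent.TH965.St.Open

/-!
# The centraliser of a complex conjugation, at finite level
-/

open NumberField

namespace Pool.Agent.TH944.Del

open Pool.Agent.TH965.St

theorem real_iff {τ : Qb →+* ℂ} {c : GQ} (hc : ∀ x, τ (c x) = (starRingEnd ℂ) (τ x)) (x : Qb) :
    c x = x ↔ ∃ r : ℝ, τ x = r := by
  constructor
  · intro h
    have h1 := hc x
    rw [h] at h1
    obtain ⟨r, hr⟩ := Complex.conj_eq_iff_real.1 h1.symm
    exact ⟨r, hr⟩
  · rintro ⟨r, hr⟩
    apply τ.injective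
    rw [hc, hr, Complex.conj_ofReal]

theorem real_of_sq {w : ℂ} {ρ : ℝ} (h : w ^ 2 = (ρ : ℂ)) (hρ : 0 < ρ) : ∃ r : ℝ, w = r := by
  have h1 : w ^ 2 = ((Real.sqrt ρ : ℝ) : ℂ) ^ 2 := by
    rw [h, ← Complex.ofReal_pow, Real.sq_sqrt hρ.le]
  rcases sq_eq_sq_iff_eq_or_eq_neg.1 h1 with h2 | h2
  · exact ⟨_, h2⟩
  · exact ⟨-Real.sqrt ρ, by rw [h2]; push_cast; rfl⟩

theorem sqrt_witness {τ : Qb →+* ℂ} {c : GQ} (hc : ∀ x, τ (c x) = (starRingEnd ℂ) (τ x))
    {L : IntermediateField ℚ Qb} (φ : L →ₐ[ℚ] Qb) (y : L) {r s : ℝ} (hr : τ y = r)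
    (hs : τ (φ y) = s) (hr0 : 0 < r) (hs0 : s < 0) :
    ∃ z : Qb, c z = z ∧ ∀ g : GQ, (∀ x : L, g x = φ x) → c (g z) ≠ g z := by
  obtain ⟨z, hz⟩ := IsAlgClosed.exists_pow_nat_eq (k := Qb) (y : Qb) (n := 2) (by norm_num)
  refine ⟨z, ?_, fun g hg hcg => ?_⟩
  · rw [real_iff hc]
    refine real_of_sq (ρ := r) ?_ hr0
    rw [← map_pow, hz, hr]
  · obtain ⟨t, ht⟩ := (real_iff hc (g z)).1 hcg
    have h1 : (g z) ^ 2 = φ y := by rw [← map_pow, hz, hg]
    have h2 : (τ (g z)) ^ 2 = (s : ℂ) := by rw [← map_pow, h1, hs]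
    rw [ht, ← Complex.ofReal_pow] at h2
    have h3 : t ^ 2 = s := Complex.ofReal_injective h2
    nlinarith [sq_nonneg t]

theorem bad_witness {τ : Qb →+* ℂ} {c : GQ} (hc : ∀ x, τ (c x) = (starRingEnd ℂ) (τ x))
    {L : IntermediateField ℚ Qb} (φ : L →ₐ[ℚ] Qb) (hφ : ∃ x : L, c x = x ∧ φ x ≠ x) :
    ∃ z : Qb, c z = z ∧ ∀ g : GQ, (∀ x : L, g x = φ x) → c (g z) ≠ g z := by
  obtain ⟨x, hx, hne⟩ := hφ
  by_cases h : c (φ x) = φ x
  · obtain ⟨r, hr⟩ := (real_iff hc x).1 hx
    obtain ⟨s, hs⟩ := (real_iff hc (φ x)).1 h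
    have hrs : r ≠ s := by
      rintro rfl
      exact hne (τ.injective (hs.trans hr.symm))
    rcases lt_or_gt_of_ne hrs with hlt | hgt
    · obtain ⟨q, hq1, hq2⟩ := exists_rat_btwn hlt
      refine sqrt_witness hc φ ((q : L) - x) (r := q - r) (s := q - s) ?_ ?_ (by linarith)
        (by linarith)
      · push_cast
        rw [map_sub, hr, map_ratCast]
      · rw [map_sub, map_sub, hs, map_ratCast, map_ratCast]
        push_cast
        rfl
    · obtain ⟨q, hq1, hq2⟩ := exists_rat_btwn hgt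
      refine sqrt_witness hc φ (x - (q : L)) (r := r - q) (s := s - q) ?_ ?_ (by linarith)
        (by linarith)
      · push_cast
        rw [map_sub, hr, map_ratCast]
      · rw [map_sub, map_sub, hs, map_ratCast, map_ratCast]
        push_cast
        rfl
  · exact ⟨x, hx, fun g hg hcg => h (by rw [← hg]; exact hcg)⟩

/-- At finite level: what commutes with a complex conjugation on a large field is trivial or the
complex conjugation on the given field. -/
theorem cent {c : GQ} (hcc : IsCC c) {L : IntermediateField ℚ Qb} (hL : NumberField L)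
    (hn : Normal ℚ L) (hi : ∃ i ∈ L, i ^ 2 = (-1 : Qb)) :
    ∃ L' : IntermediateField ℚ Qb, NumberField L' ∧ L ≤ L' ∧ Normal ℚ L' ∧
      ∀ g : GQ, (∀ y ∈ L', g (c y) = c (g y)) → (∀ y ∈ L, g y = y) ∨ (∀ y ∈ L, g y = c y) := by
  classical
  obtain ⟨τ, hτ⟩ := hcc
  obtain ⟨i, hiL, hi2⟩ := hi
  have hfd : FiniteDimensional ℚ L := (nf_iff L).1 hL
  have hex : ∀ φ : L →ₐ[ℚ] Qb, ∃ z : Qb, (∃ x : L, c x = x ∧ φ x ≠ x) →
      c z = z ∧ ∀ g : GQ, (∀ x : L, g x = φ x) → c (g z) ≠ g z := by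
    intro φ
    by_cases h : ∃ x : L, c x = x ∧ φ x ≠ x
    · obtain ⟨z, hz⟩ := bad_witness hτ φ h
      exact ⟨z, fun _ => hz⟩
    · exact ⟨0, fun h' => absurd h' h⟩
  choose z hz using hex
  let L1 : IntermediateField ℚ Qb := L ⊔ IntermediateField.adjoin ℚ (Set.range z)
  have hL1 : NumberField L1 := by
    refine nf_sup hL ?_
    rw [nf_iff]
    exact IntermediateField.finiteDimensional_adjoin
      (fun x _ => (Algebra.IsAlgebraic.isAlgebraic (R := ℚ) x).isIntegral)
  have hfd1 : FiniteDimensional ℚ L1 := (nf_iff L1).1 hL1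
  refine ⟨IntermediateField.normalClosure ℚ L1 Qb, ?_, ?_, normalClosure.normal ℚ L1 Qb, ?_⟩
  · rw [nf_iff]; infer_instance
  · exact le_sup_left.trans (IntermediateField.le_normalClosure L1)
  · intro g hg
    have hle : L1 ≤ IntermediateField.normalClosure ℚ L1 Qb := IntermediateField.le_normalClosure L1
    have hR : ∀ x ∈ L, c x = x → g x = x := by
      intro x hx hcx
      by_contra hne
      let φ : L →ₐ[ℚ] Qb := (g : Qb →ₐ[ℚ] Qb).comp L.val
      have hbad : ∃ x : L, c x = x ∧ φ x ≠ x := ⟨⟨x, hx⟩, hcx, hne⟩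
      obtain ⟨h1, h2⟩ := hz φ hbad
      have hmem : z φ ∈ L1 :=
        (le_sup_right : _ ≤ L1) (IntermediateField.subset_adjoin ℚ _ ⟨φ, rfl⟩)
      have h3 := hg _ (hle hmem)
      rw [h1] at h3
      exact h2 g (fun _ => rfl) h3.symm
    have hcL : ∀ x ∈ L, c x ∈ L := by
      intro x hx
      have := (IntermediateField.normal_iff_forall_map_le' (K := L)).1 hn c
      exact this ⟨x, hx, rfl⟩
    have hcc2 : ∀ x, c (c x) = x := by
      intro x
      apply τ.injective
      rw [hτ, hτ, Complex.conj_conj]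
    have hi0 : i ≠ 0 := by
      rintro rfl
      norm_num at hi2
    have hτi : (τ i) ^ 2 = -1 := by rw [← map_pow, hi2, map_neg, map_one]
    have hci : c i = -i := by
      have h1 : (c i) ^ 2 = i ^ 2 := by rw [← map_pow, hi2, map_neg, map_one]
      rcases sq_eq_sq_iff_eq_or_eq_neg.1 h1 with h | h
      · exfalso
        obtain ⟨r, hr⟩ := (real_iff hτ i).1 h
        rw [hr, ← Complex.ofReal_pow] at hτi
        have h3 : r ^ 2 = -1 := by
          have : ((r ^ 2 : ℝ) : ℂ) = ((-1 : ℝ) : ℂ) := by rw [hτi]; push_cast; rfl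
          exact Complex.ofReal_injective this
        nlinarith [sq_nonneg r]
      · exact h
    have hgi : g i = i ∨ g i = -i := by
      have h1 : (g i) ^ 2 = i ^ 2 := by rw [← map_pow, hi2, map_neg, map_one]
      exact sq_eq_sq_iff_eq_or_eq_neg.1 h1
    have hdec : ∀ y ∈ L, ∃ u v : Qb, g u = u ∧ g v = v ∧ c u = u ∧ c v = v ∧ y = u + i * v := by
      intro y hy
      have hcy := hcL y hy
      have h2L : (2 : Qb) ∈ L := by exact_mod_cast (natCast_mem L 2)
      have hu : (y + c y) / 2 ∈ L := L.div_mem (L.add_mem hy hcy) h2L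
      have hv : (y - c y) / (2 * i) ∈ L := L.div_mem (L.sub_mem hy hcy) (L.mul_mem h2L hiL)
      have hcu : c ((y + c y) / 2) = (y + c y) / 2 := by
        rw [map_div₀, map_add, hcc2, map_ofNat, add_comm]
      have hcv : c ((y - c y) / (2 * i)) = (y - c y) / (2 * i) := by
        rw [map_div₀, map_sub, hcc2, map_mul, map_ofNat, hci]
        field_simp
        ring
      refine ⟨_, _, hR _ hu hcu, hR _ hv hcv, hcu, hcv, ?_⟩
      field_simp
      ring
    rcases hgi with h | h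
    · left
      intro y hy
      obtain ⟨u, v, h1, h2, -, -, h3⟩ := hdec y hy
      rw [h3, map_add, map_mul, h1, h2, h]
    · right
      intro y hy
      obtain ⟨u, v, h1, h2, h4, h5, h3⟩ := hdec y hy
      rw [h3, map_add, map_mul, h1, h2, h, map_add, map_mul, h4, h5, hci]

end Pool.Agent.TH944.Del
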