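import Mathlib

/-!
# Permutation characters span the functions constant on cyclic subgroups
-/

namespace Pool.Agent.TH944.Del

variable {G : Type*} [Group G]

/-- the subgroup generated by `x` and `N` -/
def UU (N : Subgroup G) (x : G) : Subgroup G := Subgroup.zpowers x ⊔ N

/-- the permutation character of the cosets of `H` -/
noncomputable def perm (H : Subgroup G) (y : G) : ℚ := Nat.card (MulAction.fixedBy (G ⧸ H) y)

theorem mem_fixedBy_mk (H : Subgroup G) (y g : G) :
    (g : G ⧸ H) ∈ MulAction.fixedBy (G ⧸ H) y ↔ g⁻¹ * y * g ∈ H := by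
  rw [MulAction.mem_fixedBy]
  have : y • (g : G ⧸ H) = ((y * g : G) : G ⧸ H) := rfl
  rw [this, eq_comm, QuotientGroup.eq, ← mul_assoc]

theorem self_mem_UU (N : Subgroup G) (x : G) : x ∈ UU N x :=
  (le_sup_left : _ ≤ UU N x) (Subgroup.mem_zpowers x)

theorem le_UU (N : Subgroup G) (x : G) : N ≤ UU N x := le_sup_right

theorem UU_le {N : Subgroup G} {x : G} {H : Subgroup G} (hx : x ∈ H) (hN : N ≤ H) :
    UU N x ≤ H := sup_le (by rwa [Subgroup.zpowers_le]) hN

theorem fixed_iff {N : Subgroup G} [hN : N.Normal] {H : Subgroup G} (hNH : N ≤ H) (y g : G) :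
    (g : G ⧸ H) ∈ MulAction.fixedBy (G ⧸ H) y ↔ ∀ z ∈ UU N y, g⁻¹ * z * g ∈ H := by
  rw [mem_fixedBy_mk]
  constructor
  · intro h z hz
    have h1 : UU N y ≤ H.comap (MulAut.conj g⁻¹).toMonoidHom := by
      refine UU_le ?_ ?_
      · show g⁻¹ * y * g⁻¹⁻¹ ∈ H
        rwa [inv_inv]
      · intro n hn
        show g⁻¹ * n * g⁻¹⁻¹ ∈ H
        exact hNH (hN.conj_mem n hn g⁻¹)
    have h2 : g⁻¹ * z * g⁻¹⁻¹ ∈ H := h1 hz
    rwa [inv_inv] at h2
  · intro h
    exact h y (self_mem_UU N y)

theorem perm_eq_of_UU {N : Subgroup G} [hN : N.Normal] {H : Subgroup G} (hNH : N ≤ H) {y z : G}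
    (h : UU N y = UU N z) : perm H y = perm H z := by
  have e : MulAction.fixedBy (G ⧸ H) y = MulAction.fixedBy (G ⧸ H) z := by
    ext q
    induction q using QuotientGroup.induction_on with
    | H g => rw [fixed_iff hNH, fixed_iff hNH, h]
  unfold perm
  rw [e]

theorem perm_conj (H : Subgroup G) (y g : G) : perm H (g⁻¹ * y * g) = perm H y := by
  unfold perm
  congr 1
  refine Nat.card_congr ((MulAction.toPerm g).subtypeEquiv fun q => ?_)
  rw [MulAction.mem_fixedBy, MulAction.mem_fixedBy, MulAction.toPerm_apply, mul_smul, mul_smul,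
    inv_smul_eq_iff]

theorem UU_conj {N : Subgroup G} [hN : N.Normal] {x y g : G} :
    g⁻¹ * y * g ∈ UU N (g⁻¹ * x * g) ↔ y ∈ UU N x := by
  have key : ∀ (x y g : G), y ∈ UU N x → g⁻¹ * y * g ∈ UU N (g⁻¹ * x * g) := by
    intro x y g h
    have h1 : UU N x ≤ (UU N (g⁻¹ * x * g)).comap (MulAut.conj g⁻¹).toMonoidHom := by
      refine UU_le ?_ ?_
      · show g⁻¹ * x * g⁻¹⁻¹ ∈ UU N (g⁻¹ * x * g)
        rw [inv_inv]
        exact self_mem_UU N _
      · intro n hn
        show g⁻¹ * n * g⁻¹⁻¹ ∈ UU N (g⁻¹ * x * g)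
        exact le_UU N _ (hN.conj_mem n hn g⁻¹)
    have h2 : g⁻¹ * y * g⁻¹⁻¹ ∈ UU N (g⁻¹ * x * g) := h1 h
    rwa [inv_inv] at h2
  constructor
  · intro h
    have h1 := key _ _ g⁻¹ h
    have e1 : (g⁻¹)⁻¹ * (g⁻¹ * y * g) * g⁻¹ = y := by group
    have e2 : (g⁻¹)⁻¹ * (g⁻¹ * x * g) * g⁻¹ = x := by group
    rwa [e1, e2] at h1
  · exact key x y g

theorem span_perm {N : Subgroup G} [hN : N.Normal] (hfin : Finite (G ⧸ N)) (n : ℕ) :
    ∀ S : Set G, (∀ x ∈ S, ∀ g, g⁻¹ * x * g ∈ S) → (∀ x ∈ S, ∀ y ∈ UU N x, y ∈ S) →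
      ((QuotientGroup.mk : G → G ⧸ N) '' S).ncard ≤ n →
      ∀ f : G → ℚ, (∀ x y, UU N x = UU N y → f x = f y) → (∀ x g, f (g⁻¹ * x * g) = f x) →
        (∀ x, x ∉ S → f x = 0) →
        f ∈ Submodule.span ℚ {F : G → ℚ | ∃ x ∈ S, F = perm (UU N x)} := by
  induction n with
  | zero =>
    intro S _ _ hc f _ _ hS
    have h1 : ((QuotientGroup.mk : G → G ⧸ N) '' S) = ∅ := by
      rw [← Set.ncard_eq_zero (Set.toFinite _)]
      omega
    have h2 : f = 0 := by
      funext x
      apply hS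
      intro hx
      have : (x : G ⧸ N) ∈ (∅ : Set (G ⧸ N)) := h1 ▸ ⟨x, hx, rfl⟩
      exact this
    rw [h2]
    exact Submodule.zero_mem _
  | succ n ih =>
    intro S hconj hdown hc f hf1 hf2 hS
    by_cases hne : S.Nonempty
    swap
    · have h2 : f = 0 := by
        funext x
        apply hS
        intro hx
        exact hne ⟨x, hx⟩
      rw [h2]
      exact Submodule.zero_mem _
    obtain ⟨x, hx, hmin⟩ := (InvImage.wf (fun y : G => (UU N y).index)
      (Nat.lt_wfRel.wf)).has_min S hne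
    have hmin' : ∀ y ∈ S, (UU N x).index ≤ (UU N y).index := fun y hy => not_lt.1 (hmin y hy)
    have hidx : ∀ y : G, (UU N y).index ≠ 0 := by
      intro y
      have h0 : N.index ≠ 0 := Subgroup.index_ne_zero_of_finite
      exact fun h => h0 (Nat.eq_zero_of_zero_dvd (h ▸ Subgroup.index_dvd_of_le (le_UU N y)))
    let S' : Set G := {y | y ∈ S ∧ ∀ g, UU N (g⁻¹ * y * g) ≠ UU N x}
    have hS'S : S' ⊆ S := fun y hy => hy.1
    have hconj' : ∀ y ∈ S', ∀ g, g⁻¹ * y * g ∈ S' := by
      intro y hy g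
      refine ⟨hconj y hy.1 g, fun h => ?_⟩
      have e : h⁻¹ * (g⁻¹ * y * g) * h = (g * h)⁻¹ * y * (g * h) := by group
      rw [e]
      exact hy.2 _
    have hdown' : ∀ y ∈ S', ∀ z ∈ UU N y, z ∈ S' := by
      intro y hy z hz
      refine ⟨hdown y hy.1 z hz, fun g hg => ?_⟩
      have h1 : g⁻¹ * z * g ∈ UU N (g⁻¹ * y * g) := UU_conj.2 hz
      have h2 : UU N x ≤ UU N (g⁻¹ * y * g) := by
        rw [← hg]
        exact UU_le h1 (le_UU N _)
      have h3 := hmin' _ (hconj y hy.1 g)
      have h4 := Subgroup.relIndex_mul_index h2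
      have h5 : (UU N x).relIndex (UU N (g⁻¹ * y * g)) = 1 := by
        have h6 := hidx (g⁻¹ * y * g)
        have h7 : (UU N x).relIndex (UU N (g⁻¹ * y * g)) ≠ 0 := by
          intro h
          rw [h, zero_mul] at h4
          exact hidx x h4.symm
        nlinarith [Nat.pos_of_ne_zero h6, Nat.pos_of_ne_zero h7]
      rw [Subgroup.relIndex_eq_one] at h5
      exact hy.2 g (le_antisymm h5 h2)
    have hcard : ((QuotientGroup.mk : G → G ⧸ N) '' S').ncard ≤ n := by
      have h1 : ((QuotientGroup.mk : G → G ⧸ N) '' S') ⊂ ((QuotientGroup.mk : G → G ⧸ N) '' S) := by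
        refine ⟨Set.image_mono hS'S, fun hsub => ?_⟩
        obtain ⟨y, hy, hyx⟩ := hsub ⟨x, hx, rfl⟩
        have h2 : y⁻¹ * x ∈ N := QuotientGroup.eq.1 hyx
        apply hy.2 1
        rw [inv_one, one_mul, mul_one]
        apply le_antisymm
        · refine UU_le ?_ (le_UU N x)
          have e : y = x * (y⁻¹ * x)⁻¹ := by group
          rw [e]
          exact mul_mem (self_mem_UU N x) (inv_mem (le_UU N x h2))
        · refine UU_le ?_ (le_UU N y)
          have e : x = y * (y⁻¹ * x) := by group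
          rw [e]
          exact mul_mem (self_mem_UU N y) (le_UU N y h2)
      have h2 := Set.ncard_lt_ncard h1 (Set.toFinite _)
      omega
    have hpx : perm (UU N x) x ≠ 0 := by
      have hfi : (UU N x).FiniteIndex := ⟨hidx x⟩
      have hfin2 : Finite (G ⧸ UU N x) := Subgroup.finite_quotient_of_finiteIndex
      unfold perm
      rw [Nat.cast_ne_zero]
      apply Nat.card_ne_zero.2
      refine ⟨⟨⟨((1 : G) : G ⧸ UU N x), ?_⟩⟩, inferInstance⟩
      rw [mem_fixedBy_mk]
      rw [inv_one, one_mul, mul_one]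
      exact self_mem_UU N x
    have h0 : ∀ y, y ∉ S → perm (UU N x) y = 0 := by
      intro y hy
      unfold perm
      rw [Nat.cast_eq_zero, Nat.card_eq_zero]
      left
      constructor
      rintro ⟨q, hq⟩
      induction q using QuotientGroup.induction_on with
      | H g =>
        rw [mem_fixedBy_mk] at hq
        have h1 := hdown x hx _ hq
        have h2 := hconj _ h1 g⁻¹
        have e : (g⁻¹)⁻¹ * (g⁻¹ * y * g) * g⁻¹ = y := by group
        rw [e] at h2
        exact hy h2
    let f' : G → ℚ := f - (f x / perm (UU N x) x) • perm (UU N x)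
    have hf' : f' ∈ Submodule.span ℚ {F : G → ℚ | ∃ x ∈ S', F = perm (UU N x)} := by
      apply ih S' hconj' hdown' hcard
      · intro y z h
        show f y - _ = f z - _
        simp only [Pi.smul_apply, smul_eq_mul]
        rw [hf1 y z h, perm_eq_of_UU (le_UU N x) h]
      · intro y g
        show f _ - _ = f y - _
        simp only [Pi.smul_apply, smul_eq_mul]
        rw [hf2, perm_conj]
      · intro y hy
        show f y - _ = 0
        simp only [Pi.smul_apply, smul_eq_mul]
        by_cases hyS : y ∈ S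
        · have h1 : ∃ g, UU N (g⁻¹ * y * g) = UU N x := by
            by_contra hcon
            push Not at hcon
            exact hy ⟨hyS, hcon⟩
          obtain ⟨g, hg⟩ := h1
          rw [← hf2 y g, ← perm_conj _ y g, hf1 _ _ hg, perm_eq_of_UU (le_UU N x) hg]
          field_simp
          ring
        · rw [hS y hyS, h0 y hyS]
          ring
    have hfe : f = f' + (f x / perm (UU N x) x) • perm (UU N x) := by
      show f = f - _ + _
      abel
    rw [hfe]
    refine Submodule.add_mem _ ?_ (Submodule.smul_mem _ _ (Submodule.subset_span ⟨x, hx, rfl⟩))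
    refine Submodule.span_mono ?_ hf'
    rintro F ⟨y, hy, rfl⟩
    exact ⟨y, hS'S hy, rfl⟩

end Pool.Agent.TH944.Del
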