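import Pool.Agent.TH944.Del.Fam
import Pool.Agent.TH944.Del.Cent
import Pool.Agent.TH944.Del.Span

/-!
# Torsion-free invariants: totally complex fields and the trivial character suffice
-/

open NumberField

namespace Pool.Agent.TH944.Del

open Pool.Agent.TH965.St

variable {K : IntermediateField ℚ Qb}

/-- the step raising the number of complex places, with extension fields -/
theorem raise' {M : Type} [CommGroup M] (A : Family M) (N : ℕ) (hK : NumberField K)
    (ψ : LinChar K)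
    (H : ∀ (K' : IntermediateField ℚ Qb) [NumberField K'], K ≤ K' →
      N ≤ InfinitePlace.nrComplexPlaces K' → ∀ φ : LinChar K', A.D K' φ.fn = 1) :
    A.D K ψ.fn = 1 := by
  classical
  obtain ⟨p, hp, hpp⟩ := Nat.exists_infinite_primes (Module.finrank ℚ K + 2 * N + 3)
  have : Fact p.Prime := ⟨hpp⟩
  obtain ⟨ζ, hζ⟩ : ∃ ζ : Qb, IsPrimitiveRoot ζ p := by
    have : NeZero (p : Qb) := ⟨by exact_mod_cast hpp.ne_zero⟩
    exact HasEnoughRootsOfUnity.exists_primitiveRoot Qb p
  obtain ⟨y, hy⟩ : ∃ y : Qb, y ^ p = 2 := IsAlgClosed.exists_pow_nat_eq 2 hpp.pos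
  have hy0 : y ≠ 0 := by
    rintro rfl
    rw [zero_pow hpp.ne_zero] at hy
    norm_num at hy
  obtain ⟨τ⟩ : Nonempty (Qb →+* ℂ) := ⟨(IsAlgClosed.lift (R := ℚ) (S := Qb) (M := ℂ)).toRingHom⟩
  have hFy : NumberField (IntermediateField.adjoin ℚ {y}) := nf_adjoin y
  have hFz : NumberField (IntermediateField.adjoin ℚ {ζ}) := nf_adjoin ζ
  have hK1 : NumberField (K ⊔ IntermediateField.adjoin ℚ {y} : IntermediateField ℚ Qb) :=
    nf_sup hK hFy
  have hK2 : NumberField (K ⊔ IntermediateField.adjoin ℚ {ζ} : IntermediateField ℚ Qb) :=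
    nf_sup hK hFz
  have hyp : ∀ g : GQ, g (y ^ p) = y ^ p := by
    intro g
    rw [hy, map_ofNat]
  have key := A.of_identity hK hK1 hK2 le_sup_left le_sup_left _
    (kummer_identity (K := K) (K1 := K ⊔ IntermediateField.adjoin ℚ {y})
      (K2 := K ⊔ IntermediateField.adjoin ℚ {ζ}) hζ τ hy0 le_sup_left le_sup_left
      (fun g _ => hyp g) (fun g _ => hyp g)
      (fun g hg => ((mem_fix_sup K ζ g).1 hg).2)
      (fun g hg => ⟨fun h => ((mem_fix_sup K ζ g).1 h).2, fun h => (mem_fix_sup K ζ g).2 ⟨hg, h⟩⟩)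
      (fun g hg => ⟨fun h => ((mem_fix_sup K y g).1 h).2, fun h => (mem_fix_sup K y g).2 ⟨hg, h⟩⟩)
      (fun i => trans_two hζ K (by omega) hy i)) ψ
  have hp2 : p ≠ 2 := by omega
  have r1 : N ≤ InfinitePlace.nrComplexPlaces
      (K ⊔ IntermediateField.adjoin ℚ {y} : IntermediateField ℚ Qb) := by
    have a1 := r2_two hpp hp2 hy
    have a2 := r2_mono (F := IntermediateField.adjoin ℚ {y})
      (F' := K ⊔ IntermediateField.adjoin ℚ {y}) le_sup_right
    omega
  have r2 : N ≤ InfinitePlace.nrComplexPlaces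
      (K ⊔ IntermediateField.adjoin ℚ {ζ} : IntermediateField ℚ Qb) := by
    have a1 := r2_cyc hpp hp2 hζ
    have a2 := r2_mono (F := IntermediateField.adjoin ℚ {ζ})
      (F' := K ⊔ IntermediateField.adjoin ℚ {ζ}) le_sup_right
    omega
  rw [H _ le_sup_left r1, Finset.prod_eq_one (fun a _ => H _ le_sup_left r2 _), mul_one] at key
  exact key.symm

theorem comp_bot (τ τ' : Qb →+* ℂ) :
    τ.comp (algebraMap (⊥ : IntermediateField ℚ Qb) Qb) =
      τ'.comp (algebraMap (⊥ : IntermediateField ℚ Qb) Qb) := by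
  ext x
  obtain ⟨q, hq⟩ := IntermediateField.mem_bot.1 x.2
  show τ (x : Qb) = τ' (x : Qb)
  rw [← hq, eq_ratCast, map_ratCast, map_ratCast]

theorem exists_cc : ∃ c : GQ, IsCC c := by
  obtain ⟨j⟩ : Nonempty (Qb →+* ℂ) := ⟨(IsAlgClosed.lift (R := ℚ) (S := Qb) (M := ℂ)).toRingHom⟩
  obtain ⟨σ, hσ⟩ := ComplexEmbedding.exists_comp_symm_eq_of_comp_eq j _
    (comp_bot j (ComplexEmbedding.conjugate j))
  let x : (⊥ : IntermediateField ℚ Qb).fixingSubgroup :=
    (IntermediateField.fixingSubgroupEquiv ⊥).symm σ.symm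
  exact ⟨x, j, fun y => RingHom.congr_fun hσ y⟩

theorem cc_isConj {c c' : GQ} (h : IsCC c) (h' : IsCC c') : ∃ g : GQ, c' = g⁻¹ * c * g := by
  obtain ⟨τ, hτ⟩ := h
  obtain ⟨τ', hτ'⟩ := h'
  obtain ⟨k, hk⟩ := cj_conj (K := ⊥) hτ hτ' (comp_bot τ τ')
  refine ⟨(k : GQ)⁻¹, ?_⟩
  rw [inv_inv]
  exact hk

theorem normal_fix (hn : Normal ℚ K) : K.fixingSubgroup.Normal := by
  constructor
  intro n hnn g
  rw [IntermediateField.mem_fixingSubgroup_iff] at hnn ⊢
  intro x hx
  have h1 : g⁻¹ x ∈ K := (IntermediateField.normal_iff_forall_map_le' (K := K)).1 hn g⁻¹ ⟨x, hx, rfl⟩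
  show g (n (g⁻¹ x)) = x
  rw [hnn _ h1]
  exact AlgEquiv.apply_symm_apply g x

open Classical in
theorem perm_eq_ind (hK : NumberField K) (g : GQ) :
    ((perm K.fixingSubgroup g : ℚ) : ℂ) = ind ⊥ K (LinChar.one : LinChar K).fn g := by
  have hF := finQ hK
  have : Fintype (GQ ⧸ K.fixingSubgroup) := Fintype.ofFinite _
  rw [ind_bot_fn]
  unfold perm indQ
  rw [finsum_eq_sum_of_fintype]
  have h1 : ∀ q : GQ ⧸ K.fixingSubgroup,
      (LinChar.one : LinChar K).fn ((q.out : GQ)⁻¹ * g * (q.out : GQ)) =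
        if q ∈ MulAction.fixedBy (GQ ⧸ K.fixingSubgroup) g then 1 else 0 := by
    intro q
    have h2 : q ∈ MulAction.fixedBy (GQ ⧸ K.fixingSubgroup) g ↔
        (q.out : GQ)⁻¹ * g * (q.out : GQ) ∈ K.fixingSubgroup := by
      rw [← mem_fixedBy_mk, QuotientGroup.out_eq']
    by_cases h : (q.out : GQ)⁻¹ * g * (q.out : GQ) ∈ K.fixingSubgroup
    · rw [LinChar.one_fn _ h, if_pos (h2.2 h)]
    · rw [LinChar.fn_of_not_mem _ h, if_neg (fun h' => h (h2.1 h'))]
  rw [Finset.sum_congr rfl fun q _ => h1 q, Finset.sum_boole, Rat.cast_natCast,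
    Nat.card_eq_fintype_card, Fintype.card_subtype]

theorem X_zero {M : Type} [CommGroup M] {X : (GQ → ℂ) → M}
    (hX : ∀ f ∈ Virt ⊥, ∀ g ∈ Virt ⊥, X (f + g) = X f * X g) : X 0 = 1 := by
  have h := hX 0 (zero_mem _) 0 (zero_mem _)
  rw [add_zero] at h
  exact (mul_eq_left.1 h.symm)

theorem X_nsmul {M : Type} [CommGroup M] {X : (GQ → ℂ) → M}
    (hX : ∀ f ∈ Virt ⊥, ∀ g ∈ Virt ⊥, X (f + g) = X f * X g) {f : GQ → ℂ} (hf : f ∈ Virt ⊥)
    (n : ℕ) : X (n • f) = X f ^ n := by
  induction n with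
  | zero => rw [zero_smul, X_zero hX, pow_zero]
  | succ n ih => rw [succ_nsmul, hX _ (nsmul_mem hf n) _ hf, ih, pow_succ]

theorem X_neg {M : Type} [CommGroup M] {X : (GQ → ℂ) → M}
    (hX : ∀ f ∈ Virt ⊥, ∀ g ∈ Virt ⊥, X (f + g) = X f * X g) {f : GQ → ℂ} (hf : f ∈ Virt ⊥) :
    X (-f) = (X f)⁻¹ := by
  have h := hX f hf (-f) (neg_mem hf)
  rw [add_neg_cancel, X_zero hX] at h
  exact (inv_eq_of_mul_eq_one_right h.symm).symm

theorem one_mem_virt : (fun _ => 1 : GQ → ℂ) ∈ Virt ⊥ := by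
  have h := ind_mem (K := ⊥) nf_bot LinChar.one
  rw [ind_self] at h
  have e : (LinChar.one : LinChar (⊥ : IntermediateField ℚ Qb)).fn = fun _ => 1 := by
    funext g
    exact LinChar.one_fn g (mem_bot g)
  rwa [e] at h

/-- trivial characters of all number fields -/
theorem trivial_of_TC {M : Type} [CommGroup M] (hM : ∀ (x : M) (n : ℕ), n ≠ 0 → x ^ n = 1 → x = 1)
    (X : (GQ → ℂ) → M) (hX : ∀ f ∈ Virt ⊥, ∀ g ∈ Virt ⊥, X (f + g) = X f * X g)
    (h1 : X (fun _ => 1) = 1)
    (HT : ∀ (F : IntermediateField ℚ Qb), NumberField F → (∀ c ∈ F.fixingSubgroup, ¬ IsCC c) →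
      X (ind ⊥ F (LinChar.one : LinChar F).fn) = 1) (hK : NumberField K) :
    X (ind ⊥ K (LinChar.one : LinChar K).fn) = 1 := by
  classical
  obtain ⟨c, hc⟩ := exists_cc
  obtain ⟨i, hi⟩ : ∃ i : Qb, i ^ 2 = -1 := IsAlgClosed.exists_pow_nat_eq (-1) (by norm_num)
  let L0 : IntermediateField ℚ Qb := K ⊔ IntermediateField.adjoin ℚ {i}
  have hL0 : NumberField L0 := nf_sup hK (nf_adjoin i)
  have hfd0 : FiniteDimensional ℚ L0 := (nf_iff L0).1 hL0
  let L : IntermediateField ℚ Qb := IntermediateField.normalClosure ℚ L0 Qb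
  have hL : NumberField L := by rw [nf_iff]; exact normalClosure.is_finiteDimensional ℚ L0 Qb
  have hLn : Normal ℚ L := normalClosure.normal ℚ L0 Qb
  have hL0L : L0 ≤ L := IntermediateField.le_normalClosure L0
  have hKL : K ≤ L := le_sup_left.trans hL0L
  have hiL : i ∈ L := hL0L ((le_sup_right : _ ≤ L0) (IntermediateField.mem_adjoin_simple_self ℚ i))
  obtain ⟨L', hL', hLL', hn', hcent⟩ := cent hc hL hLn ⟨i, hiL, hi⟩
  have hNn : L'.fixingSubgroup.Normal := normal_fix hn'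
  have hLN : L.fixingSubgroup.Normal := normal_fix hLn
  have hle : L'.fixingSubgroup ≤ L.fixingSubgroup := IntermediateField.fixingSubgroup_le hLL'
  have hleK : L.fixingSubgroup ≤ K.fixingSubgroup := IntermediateField.fixingSubgroup_le hKL
  -- complex conjugation is not trivial on `L`
  have hcL : c ∉ L.fixingSubgroup := by
    intro h
    rw [IntermediateField.mem_fixingSubgroup_iff] at h
    have h2 := h i hiL
    obtain ⟨τ, hτ⟩ := hc
    obtain ⟨r, hr⟩ := (real_iff hτ i).1 h2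
    have h3 : (τ i) ^ 2 = -1 := by rw [← map_pow, hi, map_neg, map_one]
    rw [hr, ← Complex.ofReal_pow] at h3
    have h4 : r ^ 2 = -1 := by
      have : ((r ^ 2 : ℝ) : ℂ) = ((-1 : ℝ) : ℂ) := by rw [h3]; push_cast; rfl
      exact Complex.ofReal_injective this
    nlinarith [sq_nonneg r]
  let S : Set GQ := {x | ∀ g, g⁻¹ * c * g ∉ UU L'.fixingSubgroup x}
  let f : GQ → ℚ := fun x => perm K.fixingSubgroup x - perm K.fixingSubgroup c
  have hspan := span_perm (N := L'.fixingSubgroup) (finQ hL') _ S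
    (by
      intro x hx h g hg
      have h2 := (UU_conj (g := h⁻¹)).2 hg
      have e1 : (h⁻¹)⁻¹ * (g⁻¹ * c * g) * h⁻¹ = (g * h⁻¹)⁻¹ * c * (g * h⁻¹) := by group
      have e2 : (h⁻¹)⁻¹ * (h⁻¹ * x * h) * h⁻¹ = x := by group
      rw [e1, e2] at h2
      exact hx _ h2)
    (by
      intro x hx y hy g hg
      exact hx g (UU_le hy (le_UU _ x) hg)) le_rfl f
    (by
      intro x y h
      show perm _ x - _ = perm _ y - _
      rw [perm_eq_of_UU (hle.trans hleK) h])
    (by
      intro x g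
      show perm _ _ - _ = perm _ x - _
      rw [perm_conj])
    (by
      intro x hx
      have hx' : ∃ g, g⁻¹ * c * g ∈ UU L'.fixingSubgroup x := by
        by_contra hcon
        push Not at hcon
        exact hx hcon
      obtain ⟨g, hg⟩ := hx'
      have hg2 := (UU_conj (g := g⁻¹)).2 hg
      have e1 : (g⁻¹)⁻¹ * (g⁻¹ * c * g) * g⁻¹ = c := by group
      rw [e1] at hg2
      set x' := (g⁻¹)⁻¹ * x * g⁻¹ with hx'def
      have hpx : perm K.fixingSubgroup x = perm K.fixingSubgroup x' := by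
        rw [hx'def, perm_conj]
      obtain ⟨k, n, hn, hcx⟩ : ∃ (k : ℤ), ∃ n ∈ L'.fixingSubgroup, c = x' ^ k * n := by
        obtain ⟨a, ha, n, hn, he⟩ := (Subgroup.mem_sup_of_normal_right).1 hg2
        obtain ⟨k, hk⟩ := Subgroup.mem_zpowers_iff.1 ha
        exact ⟨k, n, hn, by rw [← he, hk]⟩
      have hcomm : ∀ y ∈ L', x' (c y) = c (x' y) := by
        intro y hy
        have hyx : x' y ∈ L' :=
          (IntermediateField.normal_iff_forall_map_le' (K := L')).1 hn' x' ⟨y, hy, rfl⟩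
        rw [IntermediateField.mem_fixingSubgroup_iff] at hn
        rw [hcx]
        show x' ((x' ^ k) (n y)) = (x' ^ k) (n (x' y))
        rw [hn y hy, hn _ hyx]
        show (x' * x' ^ k) y = (x' ^ k * x') y
        rw [(Commute.self_zpow x' k).eq]
      rcases hcent x' hcomm with h | h
      · exfalso
        apply hcL
        have hx'L : x' ∈ L.fixingSubgroup := (IntermediateField.mem_fixingSubgroup_iff _ _).2 h
        rw [hcx]
        exact mul_mem (zpow_mem hx'L k) (hle hn)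
      · have h2 : c⁻¹ * x' ∈ L.fixingSubgroup := by
          rw [IntermediateField.mem_fixingSubgroup_iff]
          intro y hy
          show c⁻¹ (x' y) = y
          rw [h y hy]
          exact AlgEquiv.symm_apply_apply c y
        have h3 : UU L.fixingSubgroup x' = UU L.fixingSubgroup c := by
          apply le_antisymm
          · refine UU_le ?_ (le_UU _ _)
            have e : x' = c * (c⁻¹ * x') := by group
            rw [e]
            exact mul_mem (self_mem_UU _ c) (le_UU _ _ h2)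
          · refine UU_le ?_ (le_UU _ _)
            have e : c = x' * (c⁻¹ * x')⁻¹ := by group
            rw [e]
            exact mul_mem (self_mem_UU _ x') (inv_mem (le_UU _ _ h2))
        show perm _ x - perm _ c = 0
        rw [hpx, perm_eq_of_UU hleK h3, sub_self])
  -- clearing denominators
  let Φ : (GQ → ℚ) → (GQ → ℂ) := fun h g => ((h g : ℚ) : ℂ)
  have hint : ∃ n : ℕ, n ≠ 0 ∧ n • f ∈ AddSubgroup.closure
      {F : GQ → ℚ | ∃ x ∈ S, F = perm (UU L'.fixingSubgroup x)} := by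
    refine Submodule.span_induction (p := fun f _ => ∃ n : ℕ, n ≠ 0 ∧ n • f ∈ AddSubgroup.closure
      {F : GQ → ℚ | ∃ x ∈ S, F = perm (UU L'.fixingSubgroup x)}) ?_ ?_ ?_ ?_ hspan
    · intro F hF
      exact ⟨1, one_ne_zero, by rw [one_smul]; exact AddSubgroup.subset_closure hF⟩
    · exact ⟨1, one_ne_zero, by rw [smul_zero]; exact zero_mem _⟩
    · rintro F F' _ _ ⟨n, hn, h⟩ ⟨n', hn', h'⟩
      refine ⟨n * n', mul_ne_zero hn hn', ?_⟩
      have e : (n * n') • (F + F') = n' • (n • F) + n • (n' • F') := by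
        rw [smul_add, ← mul_smul, ← mul_smul, mul_comm n' n]
      rw [e]
      exact add_mem (nsmul_mem h _) (nsmul_mem h' _)
    · rintro a F _ ⟨n, hn, h⟩
      refine ⟨a.den * n, mul_ne_zero a.den_nz hn, ?_⟩
      have e : (a.den * n) • (a • F) = a.num • (n • F) := by
        funext g
        simp only [Pi.smul_apply, nsmul_eq_mul, zsmul_eq_mul, smul_eq_mul]
        push_cast
        have h2 : (a.den : ℚ) * a = a.num := by
          rw [mul_comm]; exact Rat.mul_den_eq_num a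
        calc (a.den : ℚ) * n * (a * F g) = (a.den * a) * (n * F g) := by ring
          _ = a.num * (n * F g) := by rw [h2]
      rw [e]
      exact zsmul_mem h _
  obtain ⟨n, hn, hnf⟩ := hint
  have hcl : ∀ h ∈ AddSubgroup.closure {F : GQ → ℚ | ∃ x ∈ S, F = perm (UU L'.fixingSubgroup x)},
      Φ h ∈ Virt ⊥ ∧ X (Φ h) = 1 := by
    intro h hh
    induction hh using AddSubgroup.closure_induction with
    | mem F hF =>
      obtain ⟨x, hx, rfl⟩ := hF
      obtain ⟨F, hFn, hFU, -⟩ := exists_field hL' (UU L'.fixingSubgroup x) (le_UU _ x)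
      have e : Φ (perm (UU L'.fixingSubgroup x)) = ind ⊥ F (LinChar.one : LinChar F).fn := by
        funext g
        rw [← perm_eq_ind hFn, hFU]
      rw [e]
      refine ⟨ind_mem hFn _, HT F hFn ?_⟩
      intro c' hc' hcc'
      obtain ⟨g, hg⟩ := cc_isConj hc hcc'
      rw [hFU, hg] at hc'
      exact hx g hc'
    | zero =>
      have e : Φ 0 = 0 := by funext g; simp [Φ]
      rw [e]
      exact ⟨zero_mem _, X_zero hX⟩
    | add a b _ _ ha hb =>
      have e : Φ (a + b) = Φ a + Φ b := by funext g; simp [Φ]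
      rw [e, hX _ ha.1 _ hb.1, ha.2, hb.2, one_mul]
      exact ⟨add_mem ha.1 hb.1, rfl⟩
    | neg a _ ha =>
      have e : Φ (-a) = -Φ a := by funext g; simp [Φ]
      rw [e, X_neg hX ha.1, ha.2, inv_one]
      exact ⟨neg_mem ha.1, rfl⟩
  obtain ⟨-, hX1⟩ := hcl _ hnf
  -- conclusion
  have hv : Φ f = ind ⊥ K (LinChar.one : LinChar K).fn -
      (Nat.card (MulAction.fixedBy (GQ ⧸ K.fixingSubgroup) c)) • (fun _ => 1 : GQ → ℂ) := by
    funext g
    rw [Pi.sub_apply, Pi.smul_apply, ← perm_eq_ind hK]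
    show ((perm K.fixingSubgroup g - perm K.fixingSubgroup c : ℚ) : ℂ) = _
    rw [nsmul_eq_mul, mul_one]
    unfold perm
    push_cast
    rfl
  have hvm : Φ f ∈ Virt ⊥ := by
    rw [hv]
    exact sub_mem (ind_mem hK _) (nsmul_mem one_mem_virt _)
  have e2 : Φ (n • f) = n • Φ f := by
    funext g
    simp [Φ]
  rw [e2, X_nsmul hX hvm] at hX1
  have hX2 := hM _ n hn hX1
  have e3 : ind ⊥ K (LinChar.one : LinChar K).fn = Φ f +
      (Nat.card (MulAction.fixedBy (GQ ⧸ K.fixingSubgroup) c)) • (fun _ => 1 : GQ → ℂ) := by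
    rw [hv, sub_add_cancel]
  rw [e3, hX _ hvm _ (nsmul_mem one_mem_virt _), hX2, X_nsmul hX one_mem_virt, h1, one_pow,
    one_mul]

theorem mainZ {M : Type} [CommGroup M] (hM : ∀ (x : M) (n : ℕ), n ≠ 0 → x ^ n = 1 → x = 1)
    (X : (GQ → ℂ) → M) (hX : ∀ f ∈ Virt ⊥, ∀ g ∈ Virt ⊥, X (f + g) = X f * X g) (N : ℕ) :
    (∀ f ∈ Virt ⊥, X f = 1) ↔
    (X (fun _ => 1) = 1 ∧
      ∀ (K : IntermediateField ℚ Qb) [NumberField K], N ≤ InfinitePlace.nrComplexPlaces K →
        IsTotallyComplex K → ∀ ψ : LinChar K, X (ind ⊥ K ψ.fn) = 1) := by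
  constructor
  · intro H
    exact ⟨H _ one_mem_virt, fun K hK _ _ ψ => H _ (ind_mem hK ψ)⟩
  · rintro ⟨h1, H⟩
    have HT : ∀ (F : IntermediateField ℚ Qb), NumberField F →
        (∀ c ∈ F.fixingSubgroup, ¬ IsCC c) → ∀ ψ : LinChar F, X (ind ⊥ F ψ.fn) = 1 := by
      intro F hF hc ψ
      have h := raise' (fam X hX) N hF ψ (by
        intro K' hK' hle hN φ
        show X (indQ K'.fixingSubgroup φ.fn) = 1
        rw [← ind_bot_fn]
        exact H K' hN (totallyComplex_of_no_cc fun c hc' =>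
          hc c (IntermediateField.fixingSubgroup_le hle hc')) φ)
      have h' : X (indQ F.fixingSubgroup ψ.fn) = 1 := h
      rwa [← ind_bot_fn] at h'
    have hY := mainY (⊥ : Subgroup M) (fun x hx => by
      rw [Subgroup.mem_bot] at *
      exact hM x 2 two_ne_zero (by rw [sq]; exact hx)) X hX N
    intro f hf
    have h := hY.2 (by
      intro K hK hN ψ hψ
      rw [Subgroup.mem_bot]
      rcases hψ with hψ | hψ
      · exact H K hN hψ ψ
      · have e : ψ.fn = (LinChar.one : LinChar K).fn := by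
          funext g
          by_cases hg : g ∈ K.fixingSubgroup
          · rw [ψ.fn_of_mem hg, LinChar.one_fn _ hg, hψ, Units.val_one]
          · rw [ψ.fn_of_not_mem hg, LinChar.fn_of_not_mem _ hg]
        rw [e]
        exact trivial_of_TC hM X hX h1 (fun F hF hc => HT F hF hc _) hK) f hf
    rwa [Subgroup.mem_bot] at h

end Pool.Agent.TH944.Del
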