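import Pool.Agent.TH944.Del.Bsd
import Pool.Agent.TH944.Del.Mz
import Pool.Agent.TH965.St.Transfer

open NumberField Filter Topology
open Pool.Agent.TH965.Stk

namespace Pool.Agent.TH944.Tw

theorem virt_bot' : (Pool.Agent.TH965.St.Virt ⊥ : AddSubgroup (GQ → ℂ)) = Virt QQ :=
  virt_old QQ

/-- additive integer-valued functions on the virtual characters of `ℚ` -/
theorem main_int (D : (GQ → ℂ) → ℤ)
    (hD : ∀ f ∈ Virt QQ, ∀ g ∈ Virt QQ, D (f + g) = D f + D g) (N : ℕ) :
    (∀ f ∈ Virt QQ, D f = 0) ↔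
    (D (fun _ => 1) = 0 ∧ ∀ K, IsNF K → N ≤ r2 K → IsTC K → ∀ ψ : LinChar K,
      D (ind QQ K ψ.fn) = 0) := by
  have h := Del.mainZ (M := Multiplicative ℤ) (by
      intro x n hn hx
      have h1 : n • x.toAdd = 0 := by
        rw [← toAdd_pow, hx, toAdd_one]
      rcases smul_eq_zero.1 h1 with h2 | h2
      · exact absurd h2 hn
      · exact Multiplicative.toAdd.injective h2)
    (fun f => Multiplicative.ofAdd (D f))
    (by
      intro f hf g hg
      rw [virt_bot'] at hf hg
      have h0 : D (f + g) = D f + D g := hD f hf g hg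
      exact (congrArg Multiplicative.ofAdd h0).trans (ofAdd_add _ _)) N
  have e : ∀ n : ℤ, Multiplicative.ofAdd n = 1 ↔ n = 0 := fun n => ofAdd_eq_one
  simp only [e, virt_bot'] at h
  refine Iff.trans h ?_
  refine and_congr Iff.rfl ?_
  constructor
  · intro H K hK hN hT ψ
    rw [r2_old K hK] at hN
    exact @H K.toIF hK hN hT ψ.old
  · intro H K hK hN hT ψ
    exact H K hK (by rw [r2_old K hK]; exact hN) hT (LinChar.new (K := K) ψ)

theorem ord_add {F G H : ℂ → ℂ} {s : ℂ} (hF : MeromorphicAt F s) (hG : MeromorphicAt G s)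
    (h1 : meromorphicOrderAt F s ≠ ⊤) (h2 : meromorphicOrderAt G s ≠ ⊤)
    (h : H =ᶠ[𝓝[≠] s] F * G) :
    (meromorphicOrderAt H s).untop₀ = (meromorphicOrderAt F s).untop₀ +
      (meromorphicOrderAt G s).untop₀ := by
  rw [meromorphicOrderAt_congr h, meromorphicOrderAt_mul hF hG, WithTop.untop₀_add h1 h2]

theorem mult_one {V : Type} [AddCommGroup V] [Module ℂ V] (T : EqBSD V) :
    T.mult (fun _ => 1) = Module.finrank ℂ T.ρ.invariants := by
  have h1 := T.mult_ind QQ Pool.Agent.TH965.St.nf_bot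
    (LinChar.new (K := QQ) Pool.Agent.TH965.St.LinChar.one)
  have h2 : ind QQ QQ (LinChar.new (K := QQ) Pool.Agent.TH965.St.LinChar.one).fn = fun _ => 1 := by
    have h3 := Pool.Agent.TH965.St.ind_self
      (Pool.Agent.TH965.St.LinChar.one : Pool.Agent.TH965.St.LinChar ⊥)
    refine Eq.trans h3 ?_
    funext g
    exact Pool.Agent.TH965.St.LinChar.one_fn g (Del.mem_bot g)
  rw [h2] at h1
  rw [h1]
  have h4 : eig T.ρ (LinChar.new (K := QQ) Pool.Agent.TH965.St.LinChar.one) = T.ρ.invariants := by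
    ext v
    constructor
    · intro hv g
      have h5 := hv ⟨g, Del.mem_bot g⟩
      have h6 : (((LinChar.new (K := QQ) Pool.Agent.TH965.St.LinChar.one).hom
        ⟨g, Del.mem_bot g⟩ : ℂˣ) : ℂ) = 1 := rfl
      rw [h6, one_smul] at h5
      exact h5
    · intro hv g
      have h6 : (((LinChar.new (K := QQ) Pool.Agent.TH965.St.LinChar.one).hom g : ℂˣ) : ℂ) = 1 :=
        rfl
      rw [h6, one_smul]
      exact hv g
  rw [h4]

theorem main_bsd {V : Type} [AddCommGroup V] [Module ℂ V] (T : EqBSD V) (N : ℕ) :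
    (∀ f ∈ Virt QQ, T.ord f = T.mult f) ↔
    (T.ord (fun _ => 1) = Module.finrank ℂ T.ρ.invariants ∧
      ∀ K, IsNF K → N ≤ r2 K → IsTC K → ∀ ψ : LinChar K,
        T.ord (ind QQ K ψ.fn) = Module.finrank ℂ (eig T.ρ ψ)) := by
  have h := main_int (fun f => T.ord f - T.mult f) (by
    intro f hf g hg
    show T.ord (f + g) - T.mult (f + g) = _
    have h1 : T.ord (f + g) = T.ord f + T.ord g :=
      ord_add (T.mer f hf) (T.mer g hg) (T.ne f hf) (T.ne g hg) (T.mul f hf g hg)
    rw [h1, T.mult_add f hf g hg]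
    ring) N
  simp only [sub_eq_zero] at h
  rw [mult_one] at h
  refine Iff.trans h (and_congr Iff.rfl ?_)
  refine (forall_congr' fun K => forall_congr' fun hK => ?_)
  simp only [T.mult_ind K hK]

end Pool.Agent.TH944.Tw
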