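import Pool.Agent.TH965.St.Short
import Pool.Agent.TH944.Del.Tw

/-!
# Orders of Artin `L`-functions over `ℚ` at the central point
-/

open NumberField Filter Topology
open Pool.Agent.TH965.Stk

namespace Pool.Agent.TH944.Tw

/-- The Artin `L`-functions over `ℚ` near the central point `s = 1/2`. -/
structure Central where
  /-- the irreducible characters -/
  irr : Set (GQ → ℂ)
  /-- they generate the group of virtual characters -/
  irr_gen : AddSubgroup.closure irr = Virt QQ
  /-- the irreducible symplectic characters with root number `-1` -/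
  neg : Set (GQ → ℂ)
  /-- the trivial character is irreducible -/
  one_irr : (fun _ => 1) ∈ irr
  /-- the trivial character is not symplectic -/
  one_neg : (fun _ => 1) ∉ neg
  /-- the `L`-functions -/
  L : (GQ → ℂ) → ℂ → ℂ
  /-- they are meromorphic at `s = 1/2` -/
  mer : ∀ f ∈ Virt QQ, MeromorphicAt (L f) (1 / 2)
  /-- they are not zero identically near `s = 1/2` -/
  ne : ∀ f ∈ Virt QQ, meromorphicOrderAt (L f) (1 / 2) ≠ ⊤
  /-- `L`-functions of direct sums -/
  mul : ∀ f ∈ Virt QQ, ∀ g ∈ Virt QQ, L (f + g) =ᶠ[𝓝[≠] (1 / 2)] L f * L g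
  /-- the Riemann zeta function does not vanish at `1/2` -/
  zeta : meromorphicOrderAt (L fun _ => 1) (1 / 2) = 0
  /-- the number of constituents which are symplectic with root number `-1` -/
  e : (GQ → ℂ) → ℤ
  /-- it is additive -/
  e_add : ∀ f ∈ Virt QQ, ∀ g ∈ Virt QQ, e (f + g) = e f + e g
  /-- it is `1` at an irreducible symplectic character with root number `-1` -/
  e_neg : ∀ χ ∈ irr, χ ∈ neg → e χ = 1
  /-- it is `0` at the other irreducible characters -/
  e_pos : ∀ χ ∈ irr, χ ∉ neg → e χ = 0

/-- The order of vanishing at `s = 1/2`. -/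
noncomputable def Central.ord (T : Central) (f : GQ → ℂ) : ℤ :=
  (meromorphicOrderAt (T.L f) (1 / 2)).untop₀

end Pool.Agent.TH944.Tw
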