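import Pool.Agent.TH944.Del.Cen
import Pool.Agent.TH944.Del.BsdM

open NumberField Filter Topology
open Pool.Agent.TH965.Stk

namespace Pool.Agent.TH944.Tw

theorem main_central (T : Central) (N : ℕ) :
    (∀ χ ∈ T.irr, (χ ∈ T.neg → T.ord χ = 1) ∧ (χ ∉ T.neg → T.ord χ = 0)) ↔
    (∀ K, IsNF K → N ≤ r2 K → IsTC K → ∀ ψ : LinChar K,
      T.ord (ind QQ K ψ.fn) = T.e (ind QQ K ψ.fn)) := by
  have hord : ∀ f ∈ Virt QQ, ∀ g ∈ Virt QQ, T.ord (f + g) = T.ord f + T.ord g :=
    fun f hf g hg => ord_add (T.mer f hf) (T.mer g hg) (T.ne f hf) (T.ne g hg) (T.mul f hf g hg)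
  have h := main_int (fun f => T.ord f - T.e f) (by
    intro f hf g hg
    show T.ord (f + g) - T.e (f + g) = _
    rw [hord f hf g hg, T.e_add f hf g hg]
    ring) N
  simp only [sub_eq_zero] at h
  have h1 : T.ord (fun _ => 1) = T.e (fun _ => 1) := by
    rw [T.e_pos _ T.one_irr T.one_neg]
    unfold Central.ord
    rw [T.zeta]
    rfl
  have h2 : (∀ χ ∈ T.irr, (χ ∈ T.neg → T.ord χ = 1) ∧ (χ ∉ T.neg → T.ord χ = 0)) ↔
      ∀ f ∈ Virt QQ, T.ord f = T.e f := by
    constructor
    · intro H f hf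
      rw [← T.irr_gen] at hf
      have h0 : T.ord 0 = T.e 0 := by
        have a1 := hord 0 (zero_mem _) 0 (zero_mem _)
        have a2 := T.e_add 0 (zero_mem _) 0 (zero_mem _)
        rw [add_zero] at a1 a2
        omega
      have key : f ∈ Virt QQ ∧ T.ord f = T.e f := by
        induction hf using AddSubgroup.closure_induction with
        | mem χ hχ =>
          refine ⟨by rw [← T.irr_gen]; exact AddSubgroup.subset_closure hχ, ?_⟩
          by_cases hn : χ ∈ T.neg
          · rw [(H χ hχ).1 hn, T.e_neg χ hχ hn]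
          · rw [(H χ hχ).2 hn, T.e_pos χ hχ hn]
        | zero => exact ⟨zero_mem _, h0⟩
        | add a b _ _ ha hb =>
          exact ⟨add_mem ha.1 hb.1, by
            rw [hord a ha.1 b hb.1, T.e_add a ha.1 b hb.1, ha.2, hb.2]⟩
        | neg a _ ha =>
          refine ⟨neg_mem ha.1, ?_⟩
          have a1 := hord a ha.1 (-a) (neg_mem ha.1)
          have a2 := T.e_add a ha.1 (-a) (neg_mem ha.1)
          rw [add_neg_cancel] at a1 a2
          have a3 := ha.2
          omega
      exact key.2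
    · intro H χ hχ
      have hm : χ ∈ Virt QQ := by rw [← T.irr_gen]; exact AddSubgroup.subset_closure hχ
      refine ⟨fun hn => ?_, fun hn => ?_⟩
      · rw [H χ hm, T.e_neg χ hχ hn]
      · rw [H χ hm, T.e_pos χ hχ hn]
  rw [h2]
  refine Iff.trans h ?_
  constructor
  · exact fun H => H.2
  · exact fun H => ⟨h1, H⟩

end Pool.Agent.TH944.Tw
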