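import Pool.Agent.TH965.St.Open

/-!
# Induction of characters to the absolute Galois group of `ℚ`
-/

open NumberField

namespace Pool.Agent.TH944.Del

open Pool.Agent.TH965.St

/-- induction from a subgroup `H` of finite index of `GQ` -/
noncomputable def indQ (H : Subgroup GQ) (f : GQ → ℂ) : GQ → ℂ :=
  fun g => ∑ᶠ q : GQ ⧸ H, f ((q.out : GQ)⁻¹ * g * (q.out : GQ))

theorem finQ {K : IntermediateField ℚ Qb} (hK : NumberField K) :
    Finite (GQ ⧸ K.fixingSubgroup) :=
  finite_quot_of_open hK _ le_rfl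

theorem finite_sub {K K' : IntermediateField ℚ Qb} (hK' : NumberField K') :
    Finite (K.fixingSubgroup ⧸ (K'.fixingSubgroup.subgroupOf K.fixingSubgroup)) := by
  have h1 := finQ hK'
  have h2 : (K'.fixingSubgroup).FiniteIndex := ⟨Subgroup.index_ne_zero_of_finite⟩
  have h3 : (K'.fixingSubgroup.subgroupOf K.fixingSubgroup).FiniteIndex := inferInstance
  exact Subgroup.finite_quotient_of_finiteIndex

theorem indQ_add (H : Subgroup GQ) (hH : Finite (GQ ⧸ H)) (f g : GQ → ℂ) :
    indQ H (f + g) = indQ H f + indQ H g := by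
  funext x
  unfold indQ
  simp only [Pi.add_apply]
  exact finsum_add_distrib (Set.toFinite _) (Set.toFinite _)

/-- `f` is invariant under conjugation by `H` -/
def Inv (H : Subgroup GQ) (f : GQ → ℂ) : Prop :=
  ∀ h ∈ H, ∀ x, f (h⁻¹ * x * h) = f x

theorem inv_fn {K : IntermediateField ℚ Qb} (ψ : LinChar K) : Inv K.fixingSubgroup ψ.fn :=
  fun h hh x => ψ.conj_fn x ⟨h, hh⟩

theorem rep {H : Subgroup GQ} {f : GQ → ℂ} (hf : Inv H f) (g x : GQ) :
    f (((QuotientGroup.mk x : GQ ⧸ H).out)⁻¹ * g * (QuotientGroup.mk x : GQ ⧸ H).out)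
      = f (x⁻¹ * g * x) := by
  obtain ⟨h, hh⟩ := QuotientGroup.mk_out_eq_mul H x
  rw [hh]
  have e : (x * (h : GQ))⁻¹ * g * (x * h) = (h : GQ)⁻¹ * (x⁻¹ * g * x) * h := by group
  rw [e, hf _ h.2]

theorem indQ_ind {K K' : IntermediateField ℚ Qb} (hK : NumberField K) (hK' : NumberField K')
    (hle : K ≤ K') {f : GQ → ℂ} (hf : Inv K'.fixingSubgroup f) :
    indQ K.fixingSubgroup (ind K K' f) = indQ K'.fixingSubgroup f := by
  funext g
  have hs : K'.fixingSubgroup ≤ K.fixingSubgroup := IntermediateField.fixingSubgroup_le hle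
  let e := Subgroup.quotientEquivProdOfLE' hs (fun q : GQ ⧸ K.fixingSubgroup => q.out)
    (fun q => Quotient.out_eq' q)
  have hF1 := finQ hK
  have hF2 := finQ hK'
  have hF3 := finite_sub (K := K) hK'
  have : Fintype (GQ ⧸ K.fixingSubgroup) := Fintype.ofFinite _
  have : Fintype (GQ ⧸ K'.fixingSubgroup) := Fintype.ofFinite _
  have : Fintype (K.fixingSubgroup ⧸ (K'.fixingSubgroup.subgroupOf K.fixingSubgroup)) :=
    Fintype.ofFinite _
  unfold indQ ind
  rw [finsum_eq_sum_of_fintype, finsum_eq_sum_of_fintype]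
  simp only [finsum_eq_sum_of_fintype]
  rw [← Fintype.sum_prod_type', ← Equiv.sum_comp e.symm]
  refine Finset.sum_congr rfl fun p _ => ?_
  obtain ⟨q, r⟩ := p
  have h1 : e.symm (q, r) = QuotientGroup.mk (q.out * (r.out : GQ)) := by
    have : r = QuotientGroup.mk r.out := (QuotientGroup.out_eq' r).symm
    conv_lhs => rw [this]
    rfl
  rw [h1, rep hf]
  show f ((r.out : GQ)⁻¹ * ((q.out : GQ)⁻¹ * g * (q.out : GQ)) * (r.out : GQ)) =
    f ((q.out * (r.out : GQ))⁻¹ * g * (q.out * (r.out : GQ)))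
  congr 1

theorem mem_bot (g : GQ) : g ∈ (⊥ : IntermediateField ℚ Qb).fixingSubgroup := by
  rw [IntermediateField.fixingSubgroup_bot]
  trivial

theorem ind_bot {K : IntermediateField ℚ Qb} {f : GQ → ℂ}
    (hf : Inv K.fixingSubgroup f) :
    ind ⊥ K f = indQ K.fixingSubgroup f := by
  funext g
  unfold ind indQ
  refine finsum_eq_of_bijective
    (fun q => (QuotientGroup.mk ((q.out : (⊥ : IntermediateField ℚ Qb).fixingSubgroup) : GQ) :
      GQ ⧸ K.fixingSubgroup)) ⟨?_, ?_⟩ ?_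
  · intro q q' h
    have h2 := QuotientGroup.eq.1 h
    have h3 : (q.out)⁻¹ * q'.out ∈ K.fixingSubgroup.subgroupOf
        (⊥ : IntermediateField ℚ Qb).fixingSubgroup := by
      rw [Subgroup.mem_subgroupOf]
      exact h2
    have h4 := QuotientGroup.eq.2 h3
    rwa [QuotientGroup.out_eq', QuotientGroup.out_eq'] at h4
  · intro p
    refine ⟨QuotientGroup.mk ⟨p.out, mem_bot _⟩, ?_⟩
    obtain ⟨h, hh⟩ := QuotientGroup.mk_out_eq_mul (K.fixingSubgroup.subgroupOf
        (⊥ : IntermediateField ℚ Qb).fixingSubgroup) ⟨p.out, mem_bot _⟩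
    have h5 : (((QuotientGroup.mk ⟨p.out, mem_bot _⟩ :
        (⊥ : IntermediateField ℚ Qb).fixingSubgroup ⧸ (K.fixingSubgroup.subgroupOf
        (⊥ : IntermediateField ℚ Qb).fixingSubgroup)).out :
        (⊥ : IntermediateField ℚ Qb).fixingSubgroup) : GQ) = p.out * ((h : (⊥ : IntermediateField ℚ Qb).fixingSubgroup) : GQ) := by
      rw [hh]; rfl
    show (QuotientGroup.mk _ : GQ ⧸ K.fixingSubgroup) = p
    rw [h5]
    conv_rhs => rw [← QuotientGroup.out_eq' p]
    refine (QuotientGroup.eq.2 ?_).symm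
    rw [inv_mul_cancel_left]
    exact h.2
  · intro q
    exact (rep hf g _).symm

end Pool.Agent.TH944.Del
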