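import Pool.Agent.TH965.St.Short
import Pool.Agent.TH944.Del.Tw

/-!
# Multiplicities of Artin representations in Mordell-Weil groups of elliptic curves over `ℚ`
-/

open NumberField Filter Topology
open Pool.Agent.TH965.Stk

namespace Pool.Agent.TH944.Tw

/-- The pairs `(A, B)` such that `y² = x³ + A x + B` is the minimal model of an elliptic curve and
the height `max(4 |A|³, 27 B²)` is less than `X`. -/
def curves (X : ℕ) : Set (ℤ × ℤ) :=
  {x | 4 * x.1 ^ 3 + 27 * x.2 ^ 2 ≠ 0 ∧ (∀ p : ℕ, p.Prime → ¬ ((p : ℤ) ^ 4 ∣ x.1 ∧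
    (p : ℤ) ^ 6 ∣ x.2)) ∧ 4 * |x.1| ^ 3 < X ∧ 27 * x.2 ^ 2 < X}

/-- The property `P` holds for 100% of the elliptic curves over `ℚ`: the proportion of those
without `P` among those of height less than `X` tends to zero. -/
def Hundred (P : ℤ × ℤ → Prop) : Prop :=
  Tendsto (fun X : ℕ => (({x | x ∈ curves X ∧ ¬ P x}.ncard : ℝ)) / (curves X).ncard) atTop (𝓝 0)

/-- Multiplicities of Artin characters in the Mordell-Weil groups of the elliptic curves over
`ℚ`, and the irreducible characters for which the multiplicity is expected to be one. -/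
structure Minimal where
  /-- the irreducible characters -/
  irr : Set (GQ → ℂ)
  /-- they generate the group of virtual characters -/
  irr_gen : AddSubgroup.closure irr = Virt QQ
  /-- the trivial character is irreducible -/
  one_irr : (fun _ => 1) ∈ irr
  /-- the irreducible self-dual characters `ρ` with `w_E(ρ) = -1` -/
  neg : ℤ × ℤ → Set (GQ → ℂ)
  /-- the multiplicity of `f` in `E(ℚ-bar) ⊗ ℂ` -/
  m : ℤ × ℤ → (GQ → ℂ) → ℤ
  /-- it is additive -/
  m_add : ∀ x, ∀ f ∈ Virt QQ, ∀ g ∈ Virt QQ, m x (f + g) = m x f + m x g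
  /-- the number of constituents of `f` in `neg` -/
  e : ℤ × ℤ → (GQ → ℂ) → ℤ
  /-- it is additive -/
  e_add : ∀ x, ∀ f ∈ Virt QQ, ∀ g ∈ Virt QQ, e x (f + g) = e x f + e x g
  /-- it is `1` on `neg` -/
  e_neg : ∀ x, ∀ χ ∈ irr, χ ∈ neg x → e x χ = 1
  /-- it is `0` at the other irreducible characters -/
  e_pos : ∀ x, ∀ χ ∈ irr, χ ∉ neg x → e x χ = 0

end Pool.Agent.TH944.Tw
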