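import Pool.Agent.TH944.Del.Min
import Pool.Agent.TH944.Del.Add

open NumberField Filter Topology
open Pool.Agent.TH965.Stk

namespace Pool.Agent.TH944.Tw

theorem curves_finite (X : ℕ) : (curves X).Finite := by
  refine (Set.finite_Icc ((-(X : ℤ), -(X : ℤ)) : ℤ × ℤ) ((X : ℤ), (X : ℤ))).subset ?_
  rintro ⟨a, b⟩ ⟨-, -, h1, h2⟩
  simp only at h1 h2
  have ha : |a| ≤ X := by
    by_contra hcon
    push Not at hcon
    have h0 : (0 : ℤ) ≤ X := Int.natCast_nonneg X
    have h3 : (1 : ℤ) ≤ |a| := by omega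
    nlinarith [mul_nonneg (sub_nonneg.2 h3) (sub_nonneg.2 h3), sq_nonneg (|a|),
      mul_nonneg (abs_nonneg a) (sub_nonneg.2 h3), pow_le_pow_left₀ (by norm_num : (0:ℤ) ≤ 1) h3 2,
      mul_le_mul h3 (pow_le_pow_left₀ (by norm_num : (0:ℤ) ≤ 1) h3 2) (by norm_num) (abs_nonneg a)]
  have hb : |b| ≤ X := by
    by_contra hcon
    push Not at hcon
    have h0 : (0 : ℤ) ≤ X := Int.natCast_nonneg X
    have h3 : (1 : ℤ) ≤ |b| := by omega
    have h4 : b ^ 2 = |b| ^ 2 := (sq_abs b).symm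
    nlinarith [mul_nonneg (abs_nonneg b) (sub_nonneg.2 h3)]
  rw [abs_le] at ha hb
  exact ⟨⟨ha.1, hb.1⟩, ⟨ha.2, hb.2⟩⟩

theorem Hundred.mono {P Q : ℤ × ℤ → Prop} (h : Hundred P) (hPQ : ∀ x, P x → Q x) : Hundred Q := by
  refine squeeze_zero (fun X => by positivity) (fun X => ?_) h
  have h1 : {x | x ∈ curves X ∧ ¬ Q x}.ncard ≤ {x | x ∈ curves X ∧ ¬ P x}.ncard :=
    Set.ncard_le_ncard (fun x hx => ⟨hx.1, fun hp => hx.2 (hPQ x hp)⟩)
      ((curves_finite X).subset fun x hx => hx.1)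
  gcongr

theorem Hundred.and {P Q : ℤ × ℤ → Prop} (hP : Hundred P) (hQ : Hundred Q) :
    Hundred fun x => P x ∧ Q x := by
  have h := hP.add hQ
  rw [add_zero] at h
  refine squeeze_zero (fun X => by positivity) (fun X => ?_) h
  have h1 : {x | x ∈ curves X ∧ ¬ (P x ∧ Q x)}.ncard ≤
      {x | x ∈ curves X ∧ ¬ P x}.ncard + {x | x ∈ curves X ∧ ¬ Q x}.ncard := by
    refine (Set.ncard_le_ncard (t := {x | x ∈ curves X ∧ ¬ P x} ∪ {x | x ∈ curves X ∧ ¬ Q x})
      (fun x hx => ?_) ?_).trans (Set.ncard_union_le _ _)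
    · by_cases hp : P x
      · exact Or.inr ⟨hx.1, fun hq => hx.2 ⟨hp, hq⟩⟩
      · exact Or.inl ⟨hx.1, hp⟩
    · exact ((curves_finite X).subset fun x hx => hx.1).union
        ((curves_finite X).subset fun x hx => hx.1)
  rw [← add_div]
  have h2 : ({x | x ∈ curves X ∧ ¬ (P x ∧ Q x)}.ncard : ℝ) ≤
      ({x | x ∈ curves X ∧ ¬ P x}.ncard : ℝ) + {x | x ∈ curves X ∧ ¬ Q x}.ncard := by
    exact_mod_cast h1
  gcongr

theorem Hundred.all {P : ℤ × ℤ → Prop} (h : ∀ x, P x) : Hundred P := by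
  have e : (fun X : ℕ => (({x | x ∈ curves X ∧ ¬ P x}.ncard : ℝ)) / (curves X).ncard) =
      fun _ => 0 := by
    funext X
    have h1 : {x | x ∈ curves X ∧ ¬ P x} = ∅ := by
      ext x
      simp [h x]
    rw [h1, Set.ncard_empty, Nat.cast_zero, zero_div]
  unfold Hundred
  rw [e]
  exact tendsto_const_nhds

/-- integer-valued functions vanishing for 100% of the curves -/
def nullFun : AddSubgroup (ℤ × ℤ → ℤ) where
  carrier := {φ | Hundred fun x => φ x = 0}
  add_mem' := by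
    intro a b ha hb
    exact (Hundred.and ha hb).mono fun x hx => by
      show a x + b x = 0
      rw [hx.1, hx.2, add_zero]
  zero_mem' := Hundred.all fun _ => rfl
  neg_mem' := by
    intro a ha
    exact Hundred.mono ha fun x hx => by
      show -(a x) = 0
      rw [hx, neg_zero]

theorem mem_nullFun {φ : ℤ × ℤ → ℤ} : φ ∈ nullFun ↔ Hundred fun x => φ x = 0 := Iff.rfl

theorem nullFun_div (φ : ℤ × ℤ → ℤ) (n : ℕ) (hn : n ≠ 0) (h : n • φ ∈ nullFun) : φ ∈ nullFun := by
  rw [mem_nullFun] at *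
  refine h.mono fun x hx => ?_
  rw [Pi.smul_apply, smul_eq_zero] at hx
  rcases hx with hx | hx
  · exact absurd hx hn
  · exact hx

theorem main_minimal (T : Minimal) (N : ℕ) :
    (∀ χ ∈ T.irr, Hundred fun x => (χ ∈ T.neg x → T.m x χ = 1) ∧ (χ ∉ T.neg x → T.m x χ = 0)) ↔
    ((Hundred fun x => ((fun _ => 1) ∈ T.neg x → T.m x (fun _ => 1) = 1) ∧
      ((fun _ => 1) ∉ T.neg x → T.m x (fun _ => 1) = 0)) ∧
      ∀ K, IsNF K → N ≤ r2 K → IsTC K → ∀ ψ : LinChar K,
        Hundred fun x => T.m x (ind QQ K ψ.fn) = T.e x (ind QQ K ψ.fn)) := by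
  let D : (GQ → ℂ) → (ℤ × ℤ → ℤ) := fun f x => T.m x f - T.e x f
  have hDadd : ∀ f ∈ Virt QQ, ∀ g ∈ Virt QQ, D (f + g) = D f + D g := by
    intro f hf g hg
    funext x
    show T.m x (f + g) - T.e x (f + g) = (T.m x f - T.e x f) + (T.m x g - T.e x g)
    rw [T.m_add x f hf g hg, T.e_add x f hf g hg]
    ring
  have h := main_add nullFun nullFun_div D (by
    intro f hf g hg
    rw [hDadd f hf g hg, sub_self]
    exact zero_mem _) N
  have key : ∀ f, D f ∈ nullFun ↔ Hundred fun x => T.m x f = T.e x f := by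
    intro f
    rw [mem_nullFun]
    constructor
    · intro h; exact h.mono fun x hx => sub_eq_zero.1 hx
    · intro h; exact h.mono fun x hx => sub_eq_zero.2 hx
  have kirr : ∀ χ ∈ T.irr, ((Hundred fun x => (χ ∈ T.neg x → T.m x χ = 1) ∧
      (χ ∉ T.neg x → T.m x χ = 0)) ↔ D χ ∈ nullFun) := by
    intro χ hχ
    rw [key]
    constructor
    · intro h
      refine h.mono fun x hx => ?_
      by_cases hn : χ ∈ T.neg x
      · rw [hx.1 hn, T.e_neg x χ hχ hn]
      · rw [hx.2 hn, T.e_pos x χ hχ hn]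
    · intro h
      refine h.mono fun x hx => ⟨fun hn => ?_, fun hn => ?_⟩
      · rw [hx, T.e_neg x χ hχ hn]
      · rw [hx, T.e_pos x χ hχ hn]
  have h2 : (∀ χ ∈ T.irr, Hundred fun x => (χ ∈ T.neg x → T.m x χ = 1) ∧
      (χ ∉ T.neg x → T.m x χ = 0)) ↔ ∀ f ∈ Virt QQ, D f ∈ nullFun := by
    constructor
    · intro H f hf
      rw [← T.irr_gen] at hf
      have h0 : D 0 = 0 := by
        have a1 := hDadd 0 (zero_mem _) 0 (zero_mem _)
        rw [add_zero] at a1
        exact left_eq_add.1 a1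
      have key2 : f ∈ Virt QQ ∧ D f ∈ nullFun := by
        induction hf using AddSubgroup.closure_induction with
        | mem χ hχ =>
          exact ⟨by rw [← T.irr_gen]; exact AddSubgroup.subset_closure hχ,
            (kirr χ hχ).1 (H χ hχ)⟩
        | zero => exact ⟨zero_mem _, by rw [h0]; exact zero_mem _⟩
        | add a b _ _ ha hb =>
          exact ⟨add_mem ha.1 hb.1, by
            rw [hDadd a ha.1 b hb.1]; exact add_mem ha.2 hb.2⟩
        | neg a _ ha =>
          refine ⟨neg_mem ha.1, ?_⟩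
          have a1 := hDadd a ha.1 (-a) (neg_mem ha.1)
          rw [add_neg_cancel, h0] at a1
          have a2 : D (-a) = - D a := (neg_eq_of_add_eq_zero_right a1.symm).symm
          rw [a2]
          exact neg_mem ha.2
      exact key2.2
    · intro H χ hχ
      exact (kirr χ hχ).2 (H χ (by rw [← T.irr_gen]; exact AddSubgroup.subset_closure hχ))
  rw [h2]
  refine Iff.trans h (and_congr (kirr _ T.one_irr).symm ?_)
  exact forall_congr' fun K => forall_congr' fun hK => forall_congr' fun hN =>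
    forall_congr' fun hT => forall_congr' fun ψ => key _

end Pool.Agent.TH944.Tw
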