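import Pool.Agent.TH944.Del.Bsd

/-!
# Averages of Frobenius traces twisted by Artin characters
-/

open NumberField Filter Topology
open Pool.Agent.TH965.Stk

namespace Pool.Agent.TH944.Tw

/-- Frobenius averages of a fibration over `ℚ` and the Galois representation on its Mordell-Weil
group. -/
structure Nagao (V : Type) [AddCommGroup V] [Module ℂ V] where
  /-- the Galois representation -/
  ρ : Representation ℂ GQ V
  /-- the average at the prime `p` (`0` at the excluded primes) -/
  a : ℕ → ℂ
  /-- a Frobenius element at the prime `p` -/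
  Fr : ℕ → GQ
  /-- the multiplicity -/
  mult : (GQ → ℂ) → ℤ
  /-- multiplicities are additive -/
  mult_add : ∀ f ∈ Virt QQ, ∀ g ∈ Virt QQ, mult (f + g) = mult f + mult g
  /-- Frobenius reciprocity -/
  mult_ind : ∀ K, IsNF K → ∀ ψ : LinChar K,
    mult (ind QQ K ψ.fn) = Module.finrank ℂ (eig ρ ψ)

open Classical in
/-- `T⁻¹` times the sum over the primes `p ≤ T` of `a p * f (Frob p) * log p`. -/
noncomputable def Nagao.S {V : Type} [AddCommGroup V] [Module ℂ V] (T : Nagao V) (f : GQ → ℂ)
    (n : ℕ) : ℂ :=
  (∑ p ∈ Finset.range (n + 1), if p.Prime then T.a p * f (T.Fr p) * Real.log p else 0) / n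

end Pool.Agent.TH944.Tw
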