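import Pool.Agent.TH944.Del.Nag
import Pool.Agent.TH944.Del.Add

open NumberField Filter Topology
open Pool.Agent.TH965.Stk

namespace Pool.Agent.TH944.Tw

/-- sequences tending to zero -/
def nullSeq : AddSubgroup (ℕ → ℂ) where
  carrier := {g | Tendsto g atTop (𝓝 0)}
  add_mem' := by
    intro a b ha hb
    have h : Tendsto (a + b) atTop (𝓝 (0 + 0)) := Tendsto.add ha hb
    rwa [add_zero] at h
  zero_mem' := tendsto_const_nhds
  neg_mem' := by
    intro a ha
    have h : Tendsto (-a) atTop (𝓝 (-0)) := Tendsto.neg ha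
    rwa [neg_zero] at h

theorem mem_nullSeq {g : ℕ → ℂ} : g ∈ nullSeq ↔ Tendsto g atTop (𝓝 0) := Iff.rfl

theorem nullSeq_div (x : ℕ → ℂ) (n : ℕ) (hn : n ≠ 0) (h : n • x ∈ nullSeq) : x ∈ nullSeq := by
  rw [mem_nullSeq] at *
  have h1 := h.const_mul ((n : ℂ)⁻¹)
  rw [mul_zero] at h1
  refine h1.congr fun k => ?_
  rw [Pi.smul_apply, nsmul_eq_mul, ← mul_assoc, inv_mul_cancel₀ (by exact_mod_cast hn), one_mul]

theorem mult_one' {V : Type} [AddCommGroup V] [Module ℂ V] (ρ : Representation ℂ GQ V)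
    (mult : (GQ → ℂ) → ℤ) (h : ∀ K, IsNF K → ∀ ψ : LinChar K,
      mult (ind QQ K ψ.fn) = Module.finrank ℂ (eig ρ ψ)) :
    mult (fun _ => 1) = Module.finrank ℂ ρ.invariants := by
  have h1 := h QQ Pool.Agent.TH965.St.nf_bot
    (LinChar.new (K := QQ) Pool.Agent.TH965.St.LinChar.one)
  have h2 : ind QQ QQ (LinChar.new (K := QQ) Pool.Agent.TH965.St.LinChar.one).fn = fun _ => 1 := by
    have h3 := Pool.Agent.TH965.St.ind_self
      (Pool.Agent.TH965.St.LinChar.one : Pool.Agent.TH965.St.LinChar ⊥)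
    refine Eq.trans h3 ?_
    funext g
    exact Pool.Agent.TH965.St.LinChar.one_fn g (Del.mem_bot g)
  rw [h2] at h1
  rw [h1]
  have h4 : eig ρ (LinChar.new (K := QQ) Pool.Agent.TH965.St.LinChar.one) = ρ.invariants := by
    ext v
    constructor
    · intro hv g
      have h5 := hv ⟨g, Del.mem_bot g⟩
      have h6 : (((LinChar.new (K := QQ) Pool.Agent.TH965.St.LinChar.one).hom
        ⟨g, Del.mem_bot g⟩ : ℂˣ) : ℂ) = 1 := rfl
      rw [h6, one_smul] at h5
      exact h5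
    · intro hv g
      have h6 : (((LinChar.new (K := QQ) Pool.Agent.TH965.St.LinChar.one).hom g : ℂˣ) : ℂ) = 1 :=
        rfl
      rw [h6, one_smul]
      exact hv g
  rw [h4]

theorem Nagao.S_add {V : Type} [AddCommGroup V] [Module ℂ V] (T : Nagao V) (f g : GQ → ℂ)
    (n : ℕ) : T.S (f + g) n = T.S f n + T.S g n := by
  unfold Nagao.S
  rw [← add_div, ← Finset.sum_add_distrib]
  congr 1
  refine Finset.sum_congr rfl fun p _ => ?_
  split_ifs
  · rw [Pi.add_apply]; ring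
  · rw [add_zero]

theorem main_nagao {V : Type} [AddCommGroup V] [Module ℂ V] (T : Nagao V) (N : ℕ) :
    (∀ f ∈ Virt QQ, Tendsto (T.S f) atTop (𝓝 (-(T.mult f : ℂ)))) ↔
    (Tendsto (T.S fun _ => 1) atTop (𝓝 (-(Module.finrank ℂ T.ρ.invariants : ℂ))) ∧
      ∀ K, IsNF K → N ≤ r2 K → IsTC K → ∀ ψ : LinChar K,
        Tendsto (T.S (ind QQ K ψ.fn)) atTop (𝓝 (-(Module.finrank ℂ (eig T.ρ ψ) : ℂ)))) := by
  have key : ∀ (f : GQ → ℂ) (z : ℂ), (fun n => T.S f n - z) ∈ nullSeq ↔
      Tendsto (T.S f) atTop (𝓝 z) := by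
    intro f z
    rw [mem_nullSeq]
    exact tendsto_sub_nhds_zero_iff
  have h := main_add nullSeq nullSeq_div (fun f n => T.S f n - (-(T.mult f : ℂ))) (by
    intro f hf g hg
    have e : ((fun n => T.S (f + g) n - (-(T.mult (f + g) : ℂ))) -
        ((fun n => T.S f n - (-(T.mult f : ℂ))) + fun n => T.S g n - (-(T.mult g : ℂ)))) = 0 := by
      funext n
      simp only [Pi.sub_apply, Pi.add_apply, Pi.zero_apply]
      rw [T.S_add, T.mult_add f hf g hg]
      push_cast
      ring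
    rw [e]
    exact zero_mem _) N
  simp only [key] at h
  rw [mult_one' T.ρ T.mult T.mult_ind] at h
  push_cast at h
  refine Iff.trans h (and_congr Iff.rfl ?_)
  refine (forall_congr' fun K => forall_congr' fun hK => ?_)
  simp only [T.mult_ind K hK]
  push_cast
  rfl

end Pool.Agent.TH944.Tw
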