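import Pool.Agent.TH944.Del.Ind

/-!
# Values of induced characters at the identity and at a complex conjugation
-/

open NumberField

namespace Pool.Agent.TH944.Del

open Pool.Agent.TH965.St

variable {K : IntermediateField ℚ Qb}

/-- the embedding attached to a coset -/
noncomputable def emb (τ : Qb →+* ℂ) (q : GQ ⧸ K.fixingSubgroup) : K →+* ℂ :=
  (τ.comp ((q.out : GQ).toRingEquiv : Qb →+* Qb)).comp (algebraMap K Qb)

theorem emb_apply (τ : Qb →+* ℂ) (q : GQ ⧸ K.fixingSubgroup) (x : K) :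
    emb τ q x = τ ((q.out : GQ) (x : Qb)) := rfl

theorem emb_inj (τ : Qb →+* ℂ) : Function.Injective (emb (K := K) τ) := by
  intro q q' h
  have h1 : (q.out)⁻¹ * q'.out ∈ K.fixingSubgroup := by
    rw [IntermediateField.mem_fixingSubgroup_iff]
    intro x hx
    have h2 := RingHom.congr_fun h ⟨x, hx⟩
    have h3 : q.out x = q'.out x := τ.injective h2
    show (q.out)⁻¹ (q'.out x) = x
    rw [← h3]
    exact AlgEquiv.symm_apply_apply _ _
  have h4 := QuotientGroup.eq.2 h1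
  rwa [QuotientGroup.out_eq', QuotientGroup.out_eq'] at h4

theorem emb_bij (hK : NumberField K) (τ : Qb →+* ℂ) : Function.Bijective (emb (K := K) τ) := by
  have hF := finQ hK
  have : Fintype (GQ ⧸ K.fixingSubgroup) := Fintype.ofFinite _
  rw [Fintype.bijective_iff_injective_and_card]
  refine ⟨emb_inj τ, ?_⟩
  rw [NumberField.Embeddings.card, IntermediateField.finrank_eq_fixingSubgroup_index,
    Subgroup.index, Nat.card_eq_fintype_card]

theorem card_quot (hK : NumberField K) : Nat.card (GQ ⧸ K.fixingSubgroup) =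
    InfinitePlace.nrRealPlaces K + 2 * InfinitePlace.nrComplexPlaces K := by
  rw [InfinitePlace.card_add_two_mul_card_eq_rank,
    IntermediateField.finrank_eq_fixingSubgroup_index, Subgroup.index]

theorem mem_iff_real {τ : Qb →+* ℂ} {c : GQ} (hc : ∀ x, τ (c x) = (starRingEnd ℂ) (τ x))
    (q : GQ ⧸ K.fixingSubgroup) :
    (q.out)⁻¹ * c * q.out ∈ K.fixingSubgroup ↔ ComplexEmbedding.IsReal (emb τ q) := by
  rw [ComplexEmbedding.isReal_iff, IntermediateField.mem_fixingSubgroup_iff]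
  constructor
  · intro h
    ext x
    have h1 := h x x.2
    have h2 : c (q.out (x : Qb)) = q.out (x : Qb) := by
      have h3 : (q.out) (((q.out)⁻¹ * c * q.out) (x : Qb)) = q.out (x : Qb) := by rw [h1]
      have h4 : (q.out) (((q.out)⁻¹ * c * q.out) (x : Qb)) = c (q.out (x : Qb)) :=
        AlgEquiv.apply_symm_apply q.out _
      exact h4.symm.trans h3
    show (starRingEnd ℂ) (τ (q.out (x : Qb))) = τ (q.out (x : Qb))
    rw [← hc, h2]
  · intro h x hx
    have h1 := RingHom.congr_fun h ⟨x, hx⟩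
    have h2 : (starRingEnd ℂ) (τ (q.out x)) = τ (q.out x) := h1
    rw [← hc] at h2
    have h3 : c (q.out x) = q.out x := τ.injective h2
    show (q.out)⁻¹ (c (q.out x)) = x
    rw [h3]
    exact AlgEquiv.symm_apply_apply _ _

theorem card_real (hK : NumberField K) {τ : Qb →+* ℂ} {c : GQ}
    (hc : ∀ x, τ (c x) = (starRingEnd ℂ) (τ x)) :
    Nat.card {q : GQ ⧸ K.fixingSubgroup // (q.out)⁻¹ * c * q.out ∈ K.fixingSubgroup} =
      InfinitePlace.nrRealPlaces K := by
  classical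
  rw [← InfinitePlace.card_real_embeddings, ← Nat.card_eq_fintype_card]
  exact Nat.card_congr ((Equiv.ofBijective _ (emb_bij hK τ)).subtypeEquiv (fun q => mem_iff_real hc q))

theorem cc_sq {c : GQ} (hc : IsCC c) : c * c = 1 := by
  obtain ⟨τ, hτ⟩ := hc
  ext x
  apply τ.injective
  show τ (c (c x)) = τ x
  rw [hτ, hτ, Complex.conj_conj]

theorem cc_conj {c : GQ} (hc : IsCC c) (g : GQ) : IsCC (g⁻¹ * c * g) := by
  obtain ⟨τ, hτ⟩ := hc
  refine ⟨τ.comp (g.toRingEquiv : Qb →+* Qb), fun x => ?_⟩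
  show τ (g (g⁻¹ (c (g x)))) = (starRingEnd ℂ) (τ (g x))
  have e : g (g⁻¹ (c (g x))) = c (g x) := AlgEquiv.apply_symm_apply g _
  rw [e, hτ]

theorem indQ_one (hK : NumberField K) (ψ : LinChar K) :
    indQ K.fixingSubgroup ψ.fn 1 =
      InfinitePlace.nrRealPlaces K + 2 * InfinitePlace.nrComplexPlaces K := by
  have hF := finQ hK
  have : Fintype (GQ ⧸ K.fixingSubgroup) := Fintype.ofFinite _
  unfold indQ
  rw [finsum_eq_sum_of_fintype]
  have h1 : ∀ q : GQ ⧸ K.fixingSubgroup, ψ.fn ((q.out : GQ)⁻¹ * 1 * (q.out : GQ)) = 1 := by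
    intro q
    rw [mul_one, inv_mul_cancel, ψ.fn_of_mem (one_mem _)]
    have : (⟨1, one_mem _⟩ : K.fixingSubgroup) = 1 := rfl
    rw [this, map_one, Units.val_one]
  rw [Finset.sum_congr rfl fun q _ => h1 q, Finset.sum_const, nsmul_eq_mul, mul_one,
    Finset.card_univ, ← Nat.card_eq_fintype_card, card_quot hK]
  push_cast
  rfl

/-- value of `ψ` at a conjugate of the complex conjugation -/
theorem fn_cases (ψ : LinChar K) {c : GQ} (hc : IsCC c) (g : GQ) :
    ((g⁻¹ * c * g ∉ K.fixingSubgroup) ∧ ψ.fn (g⁻¹ * c * g) = 0) ∨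
    ((g⁻¹ * c * g ∈ K.fixingSubgroup) ∧ ψ.fn (g⁻¹ * c * g) = 1) ∨
    ((g⁻¹ * c * g ∈ K.fixingSubgroup) ∧ ψ.fn (g⁻¹ * c * g) = -1) := by
  by_cases h : g⁻¹ * c * g ∈ K.fixingSubgroup
  · right
    have h1 : ψ.hom ⟨_, h⟩ * ψ.hom ⟨_, h⟩ = 1 := by
      rw [← map_mul]
      have : (⟨_, h⟩ * ⟨_, h⟩ : K.fixingSubgroup) = 1 := Subtype.ext (cc_sq (cc_conj hc g))
      rw [this, map_one]
    have h2 : ((ψ.hom ⟨_, h⟩ : ℂˣ) : ℂ) * (ψ.hom ⟨_, h⟩ : ℂˣ) = 1 := by
      rw [← Units.val_mul, h1, Units.val_one]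
    rw [ψ.fn_of_mem h]
    rcases mul_self_eq_one_iff.1 h2 with h3 | h3
    · exact Or.inl ⟨h, h3⟩
    · exact Or.inr ⟨h, h3⟩
  · exact Or.inl ⟨h, ψ.fn_of_not_mem h⟩

theorem indQ_cc (hK : NumberField K) (ψ : LinChar K) {c : GQ} (hc : IsCC c) :
    ∃ p n : ℕ, p + n = InfinitePlace.nrRealPlaces K ∧
      indQ K.fixingSubgroup ψ.fn c = p - n ∧
      (ψ.HasSign 1 → n = 0) ∧ (ψ.HasSign (-1) → p = 0) := by
  classical
  have hF := finQ hK
  have : Fintype (GQ ⧸ K.fixingSubgroup) := Fintype.ofFinite _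
  obtain ⟨τ, hτ⟩ := id hc
  have hcard := card_real hK hτ
  rw [Nat.card_eq_fintype_card, Fintype.card_subtype] at hcard
  refine ⟨(Finset.univ.filter (fun q : GQ ⧸ K.fixingSubgroup =>
      ψ.fn ((q.out : GQ)⁻¹ * c * (q.out : GQ)) = 1)).card,
    (Finset.univ.filter (fun q : GQ ⧸ K.fixingSubgroup =>
      ψ.fn ((q.out : GQ)⁻¹ * c * (q.out : GQ)) = -1)).card, ?_, ?_, ?_, ?_⟩
  · rw [← hcard, Finset.card_filter, Finset.card_filter, Finset.card_filter,
      ← Finset.sum_add_distrib]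
    refine Finset.sum_congr rfl fun q _ => ?_
    rcases fn_cases ψ hc q.out with ⟨h1, h2⟩ | ⟨h1, h2⟩ | ⟨h1, h2⟩
    · rw [h2]; simp [h1]
    · rw [h2]; simp only [h1, if_true]; norm_num
    · rw [h2]; simp only [h1, if_true]; norm_num
  · unfold indQ
    rw [finsum_eq_sum_of_fintype, Finset.card_filter, Finset.card_filter]
    push_cast
    rw [← Finset.sum_sub_distrib]
    refine Finset.sum_congr rfl fun q _ => ?_
    rcases fn_cases ψ hc q.out with ⟨h1, h2⟩ | ⟨h1, h2⟩ | ⟨h1, h2⟩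
    · rw [h2]; norm_num
    · rw [h2]; norm_num
    · rw [h2]; norm_num
  · intro hs
    rw [Finset.card_eq_zero, Finset.filter_eq_empty_iff]
    intro q _ h
    rcases fn_cases ψ hc q.out with ⟨h1, h2⟩ | ⟨h1, h2⟩ | ⟨h1, h2⟩
    · rw [h2] at h; norm_num at h
    · rw [h2] at h; norm_num at h
    · have h3 := hs ⟨_, h1⟩ (cc_conj hc q.out)
      rw [ψ.fn_of_mem h1, h3] at h
      norm_num at h
  · intro hs
    rw [Finset.card_eq_zero, Finset.filter_eq_empty_iff]
    intro q _ h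
    rcases fn_cases ψ hc q.out with ⟨h1, h2⟩ | ⟨h1, h2⟩ | ⟨h1, h2⟩
    · rw [h2] at h; norm_num at h
    · have h3 := hs ⟨_, h1⟩ (cc_conj hc q.out)
      rw [ψ.fn_of_mem h1, h3] at h
      norm_num at h
    · rw [h2] at h; norm_num at h

end Pool.Agent.TH944.Del
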