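import Pool.Agent.TH944.Del.Mz
import Pool.Agent.TH452.TC.Gal5

open NumberField
open Pool.Agent.TH965.St

namespace Pool.Agent.TH944.Del

variable {K : IntermediateField ℚ Qb}

theorem ind_one_em (hK : NumberField K) (g : GQ) :
    ind ⊥ K (LinChar.one : LinChar K).fn g = ((Pool.Agent.TH452.TC.em K g : ℤ) : ℂ) := by
  rw [← perm_eq_ind hK g, Pool.Agent.TH452.TC.em_eq]
  unfold perm Pool.Agent.TH452.TC.pf
  push_cast
  rfl

section

variable {M : Type} [CommGroup M] {X : (GQ → ℂ) → M}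

theorem X_zsmul (hX : ∀ f ∈ Virt ⊥, ∀ g ∈ Virt ⊥, X (f + g) = X f * X g) {f : GQ → ℂ}
    (hf : f ∈ Virt ⊥) (n : ℤ) : X (n • f) = X f ^ n := by
  obtain ⟨m, rfl | rfl⟩ := n.eq_nat_or_neg
  · rw [natCast_zsmul, X_nsmul hX hf, zpow_natCast]
  · rw [neg_smul, natCast_zsmul, X_neg hX (nsmul_mem hf m), X_nsmul hX hf, zpow_neg,
      zpow_natCast]

theorem X_fsum (hX : ∀ f ∈ Virt ⊥, ∀ g ∈ Virt ⊥, X (f + g) = X f * X g) {ι : Type}
    (s : Finset ι) (F : ι → GQ → ℂ) (hF : ∀ i, F i ∈ Virt ⊥) :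
    X (∑ i ∈ s, F i) = ∏ i ∈ s, X (F i) := by
  classical
  induction s using Finset.induction_on with
  | empty => rw [Finset.sum_empty, Finset.prod_empty, X_zero hX]
  | insert a s ha ih =>
    rw [Finset.sum_insert ha, Finset.prod_insert ha, hX _ (hF a) _ (sum_mem fun i _ => hF i), ih]

theorem mu_X (hX : ∀ f ∈ Virt ⊥, ∀ g ∈ Virt ⊥, X (f + g) = X f * X g) :
    Pool.Agent.TH452.TC.Mu
      (fun K : Pool.Agent.TH452.TC.NF => X (ind ⊥ K.1 (LinChar.one : LinChar K.1).fn)) := by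
  intro n hn
  unfold Finsupp.prod
  have h1 : ∀ K ∈ n.support, X (ind ⊥ K.1 (LinChar.one : LinChar K.1).fn) ^ n K =
      X (n K • ind ⊥ K.1 (LinChar.one : LinChar K.1).fn) := fun K _ =>
    (X_zsmul hX (ind_mem K.2 _) _).symm
  rw [Finset.prod_congr rfl h1, ← X_fsum hX _ _ (fun K => zsmul_mem (ind_mem K.2 _) _)]
  have h2 : (∑ K ∈ n.support, n K • ind ⊥ K.1 (LinChar.one : LinChar K.1).fn) = 0 := by
    funext g
    have h3 := hn g
    unfold Finsupp.sum at h3
    have h4 : ((∑ K ∈ n.support, n K * Pool.Agent.TH452.TC.em K.1 g : ℤ) : ℂ) = 0 := by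
      rw [h3]; norm_num
    rw [Finset.sum_apply, Pi.zero_apply, ← h4]
    push_cast
    refine Finset.sum_congr rfl fun K _ => ?_
    rw [Pi.smul_apply, ind_one_em K.2, zsmul_eq_mul]
  rw [h2, X_zero hX]

end

theorem no_cc_of_tc [NumberField K] (h : IsTotallyComplex K) : ∀ c ∈ K.fixingSubgroup, ¬ IsCC c := by
  rintro c hc ⟨τ, hτ⟩
  have h1 : ComplexEmbedding.IsReal (τ.comp (algebraMap K Qb)) := by
    rw [ComplexEmbedding.isReal_iff]
    ext x
    exact Cj.real hτ hc x
  have h2 := InfinitePlace.isReal_mk_iff.2 h1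
  have h3 := h.isComplex (InfinitePlace.mk (τ.comp (algebraMap K Qb)))
  exact InfinitePlace.not_isReal_iff_isComplex.2 h3 h2

theorem mainZ2 {M : Type} [CommGroup M] (hM : ∀ x : M, x * x = 1 → x = 1)
    (X : (GQ → ℂ) → M) (hX : ∀ f ∈ Virt ⊥, ∀ g ∈ Virt ⊥, X (f + g) = X f * X g) (N : ℕ) :
    (∀ f ∈ Virt ⊥, X f = 1) ↔
    (X (fun _ => 1) = 1 ∧
      ∀ (K : IntermediateField ℚ Qb) [NumberField K], N ≤ InfinitePlace.nrComplexPlaces K →
        IsTotallyComplex K → ∀ ψ : LinChar K, X (ind ⊥ K ψ.fn) = 1) := by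
  constructor
  · intro H
    exact ⟨H _ one_mem_virt, fun K hK _ _ ψ => H _ (ind_mem hK ψ)⟩
  · rintro ⟨h1, H⟩
    have HT : ∀ (F : IntermediateField ℚ Qb), NumberField F →
        (∀ c ∈ F.fixingSubgroup, ¬ IsCC c) → ∀ ψ : LinChar F, X (ind ⊥ F ψ.fn) = 1 := by
      intro F hF hc ψ
      have h := raise' (fam X hX) N hF ψ (by
        intro K' hK' hle hN φ
        show X (indQ K'.fixingSubgroup φ.fn) = 1
        rw [← ind_bot_fn]
        exact H K' hN (totallyComplex_of_no_cc fun c hc' =>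
          hc c (IntermediateField.fixingSubgroup_le hle hc')) φ)
      have h' : X (indQ F.fixingSubgroup ψ.fn) = 1 := h
      rwa [← ind_bot_fn] at h'
    have Htriv : ∀ K : IntermediateField ℚ Qb, NumberField K →
        X (ind ⊥ K (LinChar.one : LinChar K).fn) = 1 := by
      intro K hK
      have h := Pool.Agent.TH452.TC.main_mu (mu_X hX) (T := (⊥ : Subgroup M))
        (fun z hz => by
          rw [Subgroup.mem_bot] at *
          exact hM z (by rw [← sq]; exact hz))
        (by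
          rintro F ⟨hF, hF'⟩
          rw [Subgroup.mem_bot]
          exact HT F.1 hF (no_cc_of_tc hF') _)
        ⟨⊥, nf_bot⟩ rfl ⟨K, hK⟩ (InfinitePlace.nrRealPlaces K) (fun _ => rfl)
      rw [Subgroup.mem_bot] at h
      have h2 : ind ⊥ ⊥ (LinChar.one : LinChar (⊥ : IntermediateField ℚ Qb)).fn = fun _ => 1 := by
        rw [ind_self]
        funext g
        exact LinChar.one_fn g (mem_bot g)
      have h3 : X (ind ⊥ K (LinChar.one : LinChar K).fn) /
          X (ind ⊥ ⊥ (LinChar.one : LinChar (⊥ : IntermediateField ℚ Qb)).fn) ^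
            (InfinitePlace.nrRealPlaces K) = 1 := h
      rw [h2, h1, one_pow, div_one] at h3
      exact h3
    have hY := mainY (⊥ : Subgroup M) (fun x hx => by
      rw [Subgroup.mem_bot] at *
      exact hM x hx) X hX N
    intro f hf
    have h := hY.2 (by
      intro K hK hN ψ hψ
      rw [Subgroup.mem_bot]
      rcases hψ with hψ | hψ
      · exact H K hN hψ ψ
      · have e : ψ.fn = (LinChar.one : LinChar K).fn := by
          funext g
          by_cases hg : g ∈ K.fixingSubgroup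
          · rw [ψ.fn_of_mem hg, LinChar.one_fn _ hg, hψ, Units.val_one]
          · rw [ψ.fn_of_not_mem hg, LinChar.fn_of_not_mem _ hg]
        rw [e]
        exact Htriv K hK) f hf
    rwa [Subgroup.mem_bot] at h

end Pool.Agent.TH944.Del
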