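import Pool.Agent.TH944.Del.Z2
import Pool.Agent.TH944.Del.Fin

open NumberField
open Pool.Agent.TH965.Stk

namespace Pool.Agent.TH944.Tw

/-- `mainZ2` modulo a subgroup closed under square roots, for the fields `SubQ` -/
theorem mod_sq (U : Subgroup ℂˣ) (hU : ∀ x : ℂˣ, x * x ∈ U → x ∈ U) (X : (GQ → ℂ) → ℂˣ)
    (hX : ∀ f ∈ Pool.Agent.TH965.St.Virt ⊥, ∀ g ∈ Pool.Agent.TH965.St.Virt ⊥,
      X (f + g) = X f * X g) (N : ℕ) :
    (∀ f ∈ Virt QQ, X f ∈ U) ↔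
    (X (fun _ => 1) ∈ U ∧ ∀ K, IsNF K → N ≤ r2 K → IsTC K → ∀ ψ : LinChar K,
      X (ind QQ K ψ.fn) ∈ U) := by
  have h := Del.mainZ2 (M := ℂˣ ⧸ U) (by
      intro x
      induction x using QuotientGroup.induction_on with
      | H x =>
        intro hx
        have h1 : ((x * x : ℂˣ) : ℂˣ ⧸ U) = 1 := hx
        exact (QuotientGroup.eq_one_iff x).2 (hU x ((QuotientGroup.eq_one_iff _).1 h1)))
    (fun f => (X f : ℂˣ ⧸ U)) (by
      intro f hf g hg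
      show ((X (f + g) : ℂˣ) : ℂˣ ⧸ U) = _
      rw [hX f hf g hg]
      rfl) N
  simp only [QuotientGroup.eq_one_iff] at h
  constructor
  · intro H
    refine ⟨H _ ?_, fun K hK _ _ ψ => ?_⟩
    · rw [← virt_bot]; exact Del.one_mem_virt
    · refine H _ ?_
      rw [← virt_bot]
      exact @Del.ind_mem K.toIF hK ψ.old
  · rintro ⟨H1, H2⟩ f hf
    refine h.2 ⟨H1, ?_⟩ f (by rw [virt_bot]; exact hf)
    intro K hK hN hT ψ
    exact H2 K hK (by rw [r2_old K hK]; exact hN) hT (LinChar.new (K := K) ψ)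

theorem dim_one_one (c : GQ) : dim c 1 (fun _ => 1) = 1 := by
  unfold dim
  norm_num

theorem dim_one_neg (c : GQ) : dim c (-1) (fun _ => 1) = 0 := by
  unfold dim
  norm_num

theorem r1_tc {K : SubQ} (hK : IsNF K) (h : IsTC K) : r1 K = 0 := by
  rw [r1_old K hK]
  exact @IsTotallyComplex.nrRealPlaces_eq_zero K.toIF _ hK h

theorem main2_sharp {E : Type} [Field E] (U : Subgroup ℂˣ) (hU : ∀ x : ℂˣ, x * x ∈ U → x ∈ U)
    (T : Twists E) (m : ℤ) (s : ℤˣ) (N : ℕ) :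
    (∀ σ τ, ∀ f ∈ Virt QQ, T.B m s (dim T.cc 1 f) (dim T.cc (-1) f) σ τ f ∈ U) ↔
    ((∀ σ τ, T.B m s 1 0 σ τ (fun _ => 1) ∈ U) ∧
      ∀ σ τ K, IsNF K → N ≤ r2 K → IsTC K → ∀ ψ : LinChar K,
        T.B m s (r2 K) (r2 K) σ τ (ind QQ K ψ.fn) ∈ U) := by
  have key : ∀ σ τ, ∀ K : SubQ, IsNF K → IsTC K → ∀ ψ : LinChar K,
      T.X m s σ τ (ind QQ K ψ.fn) = T.B m s (r2 K) (r2 K) σ τ (ind QQ K ψ.fn) := by
    intro σ τ K hK hT ψ
    have := T.X_ind m s 1 σ τ hK ψ (by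
      intro c hc
      exact absurd hc (no_cc hK hT c c.2))
    rw [this, one_mul, r1_tc hK hT]
    push_cast
    rw [zero_add]
  have key1 : ∀ σ τ, T.X m s σ τ (fun _ => 1) = T.B m s 1 0 σ τ (fun _ => 1) := by
    intro σ τ
    show T.B m s (dim T.cc 1 (fun _ => 1)) (dim T.cc (-1) (fun _ => 1)) σ τ (fun _ => 1) = _
    rw [dim_one_one, dim_one_neg]
  have h := fun σ τ => mod_sq U hU (T.X m s σ τ) (T.X_add m s σ τ) N
  constructor
  · intro H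
    refine ⟨fun σ τ => ?_, fun σ τ K hK hN hT ψ => ?_⟩
    · rw [← key1]
      exact ((h σ τ).1 (H σ τ)).1
    · rw [← key σ τ K hK hT ψ]
      exact ((h σ τ).1 (H σ τ)).2 K hK hN hT ψ
  · rintro ⟨H1, H2⟩ σ τ
    refine (h σ τ).2 ⟨by rw [key1]; exact H1 σ τ, fun K hK hN hT ψ => ?_⟩
    rw [key σ τ K hK hT ψ]
    exact H2 σ τ K hK hN hT ψ

end Pool.Agent.TH944.Tw
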